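import Mathlib
import Pool.Agent.Q35.EO.Stm
import Pool.Agent.Q35.EO.Stm2
import Pool.Agent.Q35.EOW.Stm

/-!
Project GM (MP_1acd66_nt): Manin's conjecture for smooth linear sections of Grassmannians of lines over
number fields, for all adelic anticanonical heights.

`M t`, `t < k`, are alternating matrices of size `N + 1`, `4 k ≤ N`; `X` is the variety of the planes `W`
in `K ^ (N + 1)` on which the `k` alternating forms vanish. The planes `W` of an open subset are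
counted by the pairs of lines in `W`: the pairs of lines are counted by project EOW (with weights), and
the number of the lines of bounded height in `W` is known uniformly in `W`.
-/

set_option autoImplicit false

namespace Pool.Agent.Q35.GM

open Finset Function NumberField MvPolynomial
open Pool.Agent.Q35.MM (bx dg Pts)
open Pool.Agent.Q35.SM (Cof Vs Var Pol ev pv MH Opn Cut Twr UU FF)
open Pool.Agent.Q35.EO (S1g bxg Shp nug YU hh)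
open Pool.Agent.Q35.EOW (nv dS LipW)

/-! ## Geometry -/

/-- Two factors of dimension `N`. -/
abbrev nn (N : ℕ) : Fin 2 → ℕ := fun _ => N

section

variable {K : Type} [Field K]

/-- The coefficients of the bilinear form of a matrix. -/
def cof {N : ℕ} (M : Matrix (Fin (N + 1)) (Fin (N + 1)) K) : Cof K (nn N) := fun a => M (a 0) (a 1)

/-- The value of the bilinear form of a matrix. -/
def bil {m : ℕ} (F : Type) [CommRing F] [Algebra K F] (M : Matrix (Fin m) (Fin m) K)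
    (x y : Fin m → F) : F :=
  ∑ p, ∑ q, algebraMap K F (M p q) * (x p * y q)

/-- The Pluecker coordinates. -/
def plu {F : Type} [CommRing F] {m : ℕ} (x y : Fin m → F) : Fin m × Fin m → F :=
  fun p => x p.1 * y p.2 - x p.2 * y p.1

/-- The matrix is alternating. -/
def Alt {m : ℕ} (M : Matrix (Fin m) (Fin m) K) : Prop := M.transpose = -M ∧ ∀ a, M a a = 0

/-- The linear section is smooth of codimension `k`. -/
def Smo {m k : ℕ} (M : Fin k → Matrix (Fin m) (Fin m) K) : Prop :=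
  ∀ x y : Fin m → AlgebraicClosure K, LinearIndependent (AlgebraicClosure K) ![x, y] →
    (∀ t, bil (AlgebraicClosure K) (M t) x y = 0) →
    ∀ μ : Fin k → AlgebraicClosure K, μ ≠ 0 → ∃ v : Fin m → AlgebraicClosure K,
      ∑ t, μ t * bil (AlgebraicClosure K) (M t) x v ≠ 0 ∨
        ∑ t, μ t * bil (AlgebraicClosure K) (M t) v y ≠ 0

/-- The `k` linear forms `M t (x, _)` are linearly independent. -/
def Gd {m k : ℕ} (F : Type) [Field F] [Algebra K F] (M : Fin k → Matrix (Fin m) (Fin m) K)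
    (x : Fin m → F) : Prop :=
  LinearIndependent F fun (t : Fin k) (a : Fin m) => bil F (M t) x (Pi.single a 1)

/-- All nonzero vectors over the algebraic closure in the span of `x` and `y` are good. -/
def All {m k : ℕ} (F : Type) [Field F] [Algebra K F] (M : Fin k → Matrix (Fin m) (Fin m) K)
    (x y : Fin m → F) : Prop :=
  ∀ z : Fin 2 → AlgebraicClosure F, z ≠ 0 → Gd (AlgebraicClosure F) M
    fun a => z 0 * algebraMap F (AlgebraicClosure F) (x a) +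
      z 1 * algebraMap F (AlgebraicClosure F) (y a)

/-- The cone over `X(L)`. -/
def ConeG {m k : ℕ} (M : Fin k → Matrix (Fin m) (Fin m) K) (L : Type) [Field L] [Algebra K L]
    (q : Fin m × Fin m → L) : Prop :=
  q ≠ 0 ∧ ∃ x y : Fin m → L, q = plu x y ∧ ∀ t, bil L (M t) x y = 0

/-- A positive continuous function on `X(L)`. -/
structure ContG {m k : ℕ} (M : Fin k → Matrix (Fin m) (Fin m) K) (L : Type) [NormedField L]
    [Algebra K L] (ψ : (Fin m × Fin m → L) → ℝ) : Prop where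
  pos : ∀ q, ConeG M L q → 0 < ψ q
  cont : ContinuousOn ψ {q | ConeG M L q}
  smul : ∀ a : L, a ≠ 0 → ∀ q, ConeG M L q → ψ (a • q) = ψ q

open Classical in
/-- A basis of a plane. -/
noncomputable def bs {m : ℕ} (W : Submodule K (Fin m → K)) : (Fin m → K) × (Fin m → K) :=
  if h : ∃ p : (Fin m → K) × (Fin m → K), LinearIndependent K ![p.1, p.2] ∧
    Submodule.span K {p.1, p.2} = W then h.choose else 0

/-- The maximum norm of the Pluecker coordinates. -/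
noncomputable def nvp {m : ℕ} (v : K → ℝ) (x y : Fin m → K) : ℝ := ⨆ p, v (plu x y p)

end

/-- GM-1 (KER): few algebraically independent coordinates. -/
def S_KER : Prop :=
  ∀ (K : Type) [Field K] [CharZero K] (m k : ℕ) (M : Fin k → Matrix (Fin m) (Fin m) K),
    (∀ t, Alt (M t)) → Smo M → ∀ (F : Type) [Field F] [Algebra K F] (μ : Fin k → F)
    (u : Fin m → F) (B : Finset (Fin m)), μ ≠ 0 →
    (∀ v : Fin m → F, ∑ t, μ t * bil F (M t) u v = 0) →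
    (AlgebraicIndependent K fun b : B => u b) → B.card < 2 * k

/-- GM-2 (ELA): elimination, in the coordinates of two vectors. -/
def S_ELA : Prop :=
  ∀ (K : Type) [Field K] [CharZero K] (N k : ℕ)
    (M : Fin k → Matrix (Fin (N + 1)) (Fin (N + 1)) K), 1 ≤ k →
    ∃ A : Finset (Pol K (nn N)), (∀ g ∈ A, MH g) ∧
      ∀ (F : Type) [Field F] [Algebra K F] (x : Vs F (nn N)), Opn F A x ↔ All F M (x 0) (x 1)

/-- GM-3 (ELP): elimination, in the Pluecker coordinates. -/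
def S_ELP : Prop :=
  ∀ (K : Type) [Field K] [CharZero K] (N k : ℕ)
    (M : Fin k → Matrix (Fin (N + 1)) (Fin (N + 1)) K), 1 ≤ k →
    ∃ A : Finset (MvPolynomial (Fin (N + 1) × Fin (N + 1)) K),
      (∀ g ∈ A, ∃ e, g.IsHomogeneous e) ∧
      ∀ (F : Type) [Field F] [Algebra K F] (x y : Fin (N + 1) → F),
        (∃ g ∈ A, aeval (plu x y) g ≠ 0) ↔ All F M x y

/-- GM-4 (CUTX): for good `x` the bad `y` have large codimension. -/
def S_CUTX : Prop :=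
  ∀ (K : Type) [Field K] [CharZero K] (N k : ℕ)
    (M : Fin k → Matrix (Fin (N + 1)) (Fin (N + 1)) K) (A : Finset (Pol K (nn N))), 1 ≤ k →
    2 * k ≤ N → (∀ t, Alt (M t)) → Smo M → (∀ g ∈ A, MH g) →
    (∀ (F : Type) [Field F] [Algebra K F] (x : Vs F (nn N)),
      Opn F A x ↔ All F M (x 0) (x 1)) →
    ∀ x : Vs K (nn N), Gd K M (x 0) → Cut K (N + 1 - 2 * k) 1 A x

/-- GM-5 (THIN): few pairs of lines are in bad planes. -/
def S_THIN : Prop :=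
  ∀ (K : Type) [Field K] [NumberField K] (N k : ℕ)
    (M : Fin k → Matrix (Fin (N + 1)) (Fin (N + 1)) K) (A : Finset (Pol K (nn N))), 1 ≤ k →
    2 * k ≤ N → (∀ g ∈ A, MH g) →
    (∀ x : Vs K (nn N), Gd K M (x 0) → Cut K (N + 1 - 2 * k) 1 A x) →
    ∃ C : ℝ, 0 ≤ C ∧ ∀ T : ℝ, 1 ≤ T →
      {x : Pts K (nn N) | Gd K M (x 0).rep ∧ ¬ Opn K A (fun i => (x i).rep) ∧
        ∀ i, (x i).mulHeight ≤ T}.Finite ∧
      (({x : Pts K (nn N) | Gd K M (x 0).rep ∧ ¬ Opn K A (fun i => (x i).rep) ∧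
        ∀ i, (x i).mulHeight ≤ T}.ncard : ℕ) : ℝ) ≤ C * T ^ (N + 1 + 2 * k)

/-! ## Pairs of lines -/

/-- GM-6 (MOBB): inversion of Moebius for ideals, for boxes. -/
def S_MOBB : Prop :=
  ∀ (K : Type) [Field K] [NumberField K] (ι : Type) [Fintype ι] [DecidableEq ι] (n r : ι → ℕ)
    (U : Vs K n → Prop) (W : Vs K n → ℝ) (R C η : ℝ), (∀ l, 2 ≤ r l) → 0 ≤ R → 0 ≤ C → 0 < η →
    (∀ P, 0 ≤ W P) → (∀ P, W P ≤ 1) →
    (∀ β : ℝ, {y ∈ YU U | ∀ l, hh l y ≤ β}.Finite) →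
    (∀ β : ι → ℝ, (∀ l, 1 ≤ β l) →
      (({y ∈ YU U | ∀ l, hh l y ≤ β l}.ncard : ℕ) : ℝ) ≤ C * ∏ l, β l ^ r l) →
    (∀ (β : ι → ℝ) (m : ℝ), 1 ≤ m → (∀ l, m ≤ β l) →
      |∑ᶠ y ∈ {y ∈ YU U | ∀ l, hh l y ≤ β l}, W (fun i => (y.1 i).rep) - R * ∏ l, β l ^ r l| ≤
        C * m ^ (-η) * ∏ l, β l ^ r l) →
    ∃ R1 : ℝ, (0 < R → 0 < R1) ∧ ∀ α : ι → ℝ, (∀ l, 0 < α l) →
      Filter.Tendsto (fun T : ℝ =>
        (∑ᶠ x ∈ {x : Pts K n | U (fun i => (x i).rep) ∧ ∀ l, (x l).mulHeight ≤ α l * T},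
          W fun i => (x i).rep) / T ^ (∑ l, r l)) Filter.atTop (nhds (R1 * ∏ l, α l ^ r l))

section

variable {K : Type} [Field K] [NumberField K]

/-- The product of the local distances of two lines, for all infinite places and the places in `S`. -/
noncomputable def psS (S : Finset (FinitePlace K)) {m : ℕ} (x y : Fin m → K) : ℝ :=
  (∏ w : InfinitePlace K, (nvp w x y / (nv w x * nv w y)) ^ w.mult) *
    ∏ v ∈ S, nvp v x y / (nv v x * nv v y)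

/-- The product of the local distances of two lines, for all places. -/
noncomputable def psi {m : ℕ} (x y : Fin m → K) : ℝ :=
  Height.mulHeight (plu x y) / (Height.mulHeight x * Height.mulHeight y)

/-- A nonnegative function of the plane spanned by two vectors, which is continuous for the places in
`S` and the infinite places. -/
structure Nice {N : ℕ} (Z : Vs K (nn N) → Prop) (S : Finset (FinitePlace K))
    (F : Vs K (nn N) → ℝ) : Prop where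
  bd : ∃ B : ℝ, ∀ P, Z P → 0 ≤ F P ∧ F P ≤ B
  smul : ∀ a : Fin 2 → K, (∀ i, a i ≠ 0) → ∀ P, Z P → F (fun i => a i • P i) = F P
  cont : ∀ c ε : ℝ, 0 < c → 0 < ε → ∃ δ : ℝ, 0 < δ ∧ ∀ P Q, Z P → Z Q →
    (∀ w : InfinitePlace K, c * (nv w (P 0) * nv w (P 1)) ≤ nvp w (P 0) (P 1)) →
    (∀ v ∈ S, c * (nv v (P 0) * nv v (P 1)) ≤ nvp v (P 0) (P 1)) →
    (∀ i, ∀ w : InfinitePlace K, nv w (P i - Q i) ≤ δ * nv w (P i)) →
    (∀ i, ∀ v ∈ S, nv v (P i - Q i) ≤ δ * nv v (P i)) → |F P - F Q| ≤ ε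

end

/-- GM-7 (PSZ): truncation of the product of the local distances. -/
def S_PSZ : Prop :=
  ∀ (K : Type) [Field K] [NumberField K] (z : ℕ), 1 ≤ z → ∃ S0 : Finset (FinitePlace K),
    ∀ S : Finset (FinitePlace K), S0 ⊆ S → ∀ (m : ℕ) (x y : Fin m → K), plu x y ≠ 0 →
      0 ≤ psi x y ∧ psi x y ≤ psS S x y ∧ psS S x y ≤ 2 ^ dg K ∧
        (1 / (z : ℝ) ≤ psi x y → psS S x y = psi x y)

/-- GM-8 (UCP): uniform continuity of the weights. -/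
def S_UCP : Prop :=
  ∀ (K : Type) [Field K] [NumberField K] (N : ℕ) (Z : Vs K (nn N) → Prop)
    (S : Finset (FinitePlace K)) (F : Vs K (nn N) → ℝ) (G : ℝ → ℝ) (Λ : ℝ),
    (∀ P, Z P → ∀ i, P i ≠ 0) → Nice Z S F → (∀ u v, |G u - G v| ≤ Λ * |u - v|) → (∀ u, 0 ≤ G u) →
    (∀ u, G u ≤ 1) →
    (∃ B : ℝ, 0 < B ∧ ∀ P, Z P →
      0 ≤ psS S (P 0) (P 1) ^ 2 * G (psS S (P 0) (P 1)) * F P ∧
        psS S (P 0) (P 1) ^ 2 * G (psS S (P 0) (P 1)) * F P ≤ B) ∧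
    (∀ a : Fin 2 → K, (∀ i, a i ≠ 0) → ∀ P, Z P →
      psS S (a 0 • P 0) (a 1 • P 1) = psS S (P 0) (P 1)) ∧
    ∀ ε : ℝ, 0 < ε → ∃ δ : ℝ, 0 < δ ∧ ∀ P Q, Z P → Z Q →
      (∀ i, ∀ v : InfinitePlace K, nv v (P i - Q i) ≤ δ * nv v (P i)) →
      (∀ i, ∀ v ∈ S, nv v (P i - Q i) ≤ δ * nv v (P i)) →
      |psS S (P 0) (P 1) ^ 2 * G (psS S (P 0) (P 1)) * F P -
        psS S (Q 0) (Q 1) ^ 2 * G (psS S (Q 0) (Q 1)) * F Q| ≤ ε

/-- GM-9 (CPG): continuous functions on `X(L)` are bounded, and uniformly continuous in the bases which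
are not too skew. -/
def S_CPG : Prop :=
  ∀ (K : Type) [Field K] (m k : ℕ) (M : Fin k → Matrix (Fin m) (Fin m) K) (L : Type)
    [NormedField L] [Algebra K L] [ProperSpace L] (ψ : (Fin m × Fin m → L) → ℝ),
    (∀ t, Alt (M t)) → ContG M L ψ →
    (∃ A B : ℝ, 0 < A ∧ ∀ q, ConeG M L q → A ≤ ψ q ∧ ψ q ≤ B) ∧
    ∀ c ε : ℝ, 0 < c → 0 < ε → ∃ δ : ℝ, 0 < δ ∧ ∀ x y x' y' : Fin m → L, plu x y ≠ 0 →
      plu x' y' ≠ 0 → (∀ t, bil L (M t) x y = 0) → (∀ t, bil L (M t) x' y' = 0) →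
      c * (‖x‖ * ‖y‖) ≤ ‖plu x y‖ → ‖x - x'‖ ≤ δ * ‖x‖ → ‖y - y'‖ ≤ δ * ‖y‖ →
      |ψ (plu x y) - ψ (plu x' y')| ≤ ε

/-- GM-10 (PLB): planes and Pluecker coordinates. -/
def S_PLB : Prop :=
  ∀ (K : Type) [Field K] (m : ℕ) (x y : Fin m → K),
    (LinearIndependent K ![x, y] ↔ plu x y ≠ 0) ∧
    (LinearIndependent K ![x, y] →
      Submodule.span K (Set.range fun (b : Fin m) (a : Fin m) => plu x y (a, b)) =
        Submodule.span K {x, y} ∧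
      ∀ x' y' : Fin m → K, x' ∈ Submodule.span K {x, y} → y' ∈ Submodule.span K {x, y} →
        ∃ c : K, plu x' y' = c • plu x y)

/-! ## Lines in planes -/

section

variable {K : Type} [Field K] [NumberField K]

/-- The height of a plane. -/
noncomputable def HW {m : ℕ} (W : Submodule K (Fin m → K)) : ℝ :=
  Height.mulHeight (plu (bs W).1 (bs W).2)

open Classical in
/-- The volume of the unit ball of the plane spanned by `x` and `y`, in the coordinates for the basis,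
times `τ ^ 2` for a real place and `τ ^ 4` for a complex place. -/
noncomputable def volw {m : ℕ} (w : InfinitePlace K) (x y : Fin m → K) (τ : ℝ) : ℝ :=
  if w.IsReal then
    (MeasureTheory.volume {z : Fin 2 → ℝ |
      ∀ a, |z 0 * (w.embedding (x a)).re + z 1 * (w.embedding (y a)).re| ≤ τ}).toReal
  else
    (MeasureTheory.volume {z : Fin 2 → ℂ |
      ∀ a, ‖z 0 * w.embedding (x a) + z 1 * w.embedding (y a)‖ ≤ τ}).toReal

/-- The local factor of a plane. -/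
noncomputable def FV {m : ℕ} (w : InfinitePlace K) (x y : Fin m → K) : ℝ :=
  nvp w x y ^ w.mult * volw w x y 1

/-- The product of the local factors of a plane. -/
noncomputable def VW {m : ℕ} (W : Submodule K (Fin m → K)) : ℝ :=
  ∏ w : InfinitePlace K, FV w (bs W).1 (bs W).2

/-- The size of the box at an infinite place. -/
noncomputable def tmin (t : (K →+* ℂ) → ℝ) (w : InfinitePlace K) : ℝ :=
  min (t w.embedding) (t (ComplexEmbedding.conjugate w.embedding))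

end

/-- The constant in the count of lattice points in planes. -/
noncomputable def kap (K : Type) [Field K] [NumberField K] : ℝ :=
  4 ^ InfinitePlace.nrComplexPlaces K / |(discr K : ℝ)|

/-- The constant in the count of lattice points in planes, for the box `(I, t)`. -/
noncomputable def cI {K : Type} [Field K] [NumberField K] (I : Ideal (𝓞 K))
    (t : (K →+* ℂ) → ℝ) : ℝ :=
  kap K / (Ideal.absNorm I : ℝ) ^ 2 * ∏ w : InfinitePlace K, tmin t w ^ (2 * w.mult)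

/-- GM-11 (VF): the local factors. -/
def S_VF : Prop :=
  ∀ (K : Type) [Field K] [NumberField K] (m : ℕ), ∃ C : ℝ, 1 ≤ C ∧
    (∀ (w : InfinitePlace K) (x y : Fin m → K), LinearIndependent K ![x, y] →
      1 / C ≤ FV w x y ∧ FV w x y ≤ C ∧
      (∀ τ : ℝ, 0 ≤ τ → volw w x y τ = τ ^ (2 * w.mult) * volw w x y 1) ∧
      ∀ a b c d : K, a * d - b * c ≠ 0 → FV w (a • x + b • y) (c • x + d • y) = FV w x y) ∧
    ∀ (w : InfinitePlace K) (c ε : ℝ), 0 < c → 0 < ε → ∃ δ : ℝ, 0 < δ ∧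
      ∀ x y x' y' : Fin m → K, LinearIndependent K ![x, y] → LinearIndependent K ![x', y'] →
        c * (nv w x * nv w y) ≤ nvp w x y → nv w (x - x') ≤ δ * nv w x →
        nv w (y - y') ≤ δ * nv w y → |FV w x y - FV w x' y'| ≤ ε

/-- GM-12 (SPL): the lattice of the integral points of a plane is a sum of two ideals. -/
def S_SPL : Prop :=
  ∀ (K : Type) [Field K] [NumberField K] (m : ℕ) (I : Ideal (𝓞 K)) (x y : Fin m → K), I ≠ ⊥ →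
    LinearIndependent K ![x, y] →
    ∃ (c : K) (J1 J2 : FractionalIdeal (nonZeroDivisors (𝓞 K)) K), J1 ≠ 0 ∧ J2 ≠ 0 ∧
      (∀ α β : K, (∀ a, ∃ z ∈ I, algebraMap (𝓞 K) K z = α * x a + β * (y a - c * x a)) ↔
        α ∈ J1 ∧ β ∈ J2) ∧
      Height.mulHeight (plu x y) * (Ideal.absNorm I : ℝ) ^ 2 =
        (∏ w : InfinitePlace K, nvp w x y ^ w.mult) *
          (((FractionalIdeal.absNorm J1 : ℚ) : ℝ) * ((FractionalIdeal.absNorm J2 : ℚ) : ℝ))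

/-- GM-13 (CNT): lattice points of a sum of two ideals. -/
def S_CNT : Prop :=
  ∀ (K : Type) [Field K] [NumberField K] (m : ℕ)
    (J1 J2 : FractionalIdeal (nonZeroDivisors (𝓞 K)) K) (x y : Fin m → K)
    (t : (K →+* ℂ) → ℝ), J1 ≠ 0 → J2 ≠ 0 → LinearIndependent K ![x, y] → (∀ φ, 0 < t φ) →
    Filter.Tendsto (fun B : ℕ => (({p : K × K | p.1 ∈ J1 ∧ p.2 ∈ J2 ∧
      ∀ (φ : K →+* ℂ) (a : Fin m), ‖φ (p.1 * x a + p.2 * y a)‖ ≤ t φ * B}.ncard : ℕ) : ℝ) /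
        (B : ℝ) ^ (2 * dg K)) Filter.atTop
      (nhds (kap K /
        (((FractionalIdeal.absNorm J1 : ℚ) : ℝ) * ((FractionalIdeal.absNorm J2 : ℚ) : ℝ)) *
        ∏ w : InfinitePlace K, volw w x y (tmin t w)))

/-- GM-14 (LIM): the density of the lattice points of a plane. -/
def S_LIM : Prop :=
  ∀ (K : Type) [Field K] [NumberField K] (m : ℕ) (I : Ideal (𝓞 K)) (t : (K →+* ℂ) → ℝ)
    (W : Submodule K (Fin m → K)), I ≠ ⊥ → (∀ φ, 0 < t φ) → Module.finrank K W = 2 →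
    Filter.Tendsto (fun B : ℕ => (nug K I t m W B : ℝ) / (B : ℝ) ^ (2 * dg K)) Filter.atTop
      (nhds (cI I t * VW W / HW W))

/-- GM-15 (LA): lattice points of a plane with an error term. -/
def S_LA : Prop :=
  ∀ (K : Type) [Field K] [NumberField K] (m : ℕ) (I : Ideal (𝓞 K)) (c0 : ℝ), I ≠ ⊥ → 1 ≤ c0 →
    ∃ C : ℝ, 1 ≤ C ∧ ∀ t : (K →+* ℂ) → ℝ, Shp c0 t →
    ∀ (W : Submodule K (Fin m → K)) (σ ρ : ℕ), Module.finrank K W = 2 → 1 ≤ σ →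
      W ≤ Submodule.span K {x : Fin m → K | x ∈ W ∧ x ∈ bx K m σ} → C * (σ : ℝ) ≤ ρ →
      |(nug K I t m W ρ : ℝ) - cI I t * VW W / HW W * (ρ : ℝ) ^ (2 * dg K)| ≤
        C * ((σ : ℝ) / ρ) * ((ρ : ℝ) ^ (2 * dg K) / HW W)

/-- GM-16 (MIN): the successive minima of planes. -/
def S_MIN : Prop :=
  ∀ (K : Type) [Field K] [NumberField K] (m : ℕ), ∃ C : ℝ, 1 ≤ C ∧
    ∀ W : Submodule K (Fin m → K), Module.finrank K W = 2 →
      1 ≤ HW W ∧ 1 / C ≤ VW W ∧ VW W ≤ C ∧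
      (∃ l l' : Projectivization K (Fin m → K), l ≠ l' ∧ l.rep ∈ W ∧ l'.rep ∈ W ∧
        l.mulHeight * l'.mulHeight ≤ C * HW W) ∧
      (∀ l l' : Projectivization K (Fin m → K), l ≠ l' → l.rep ∈ W → l'.rep ∈ W →
        HW W ≤ C * (l.mulHeight * l'.mulHeight)) ∧
      ∀ a : ℝ, 0 < a →
        (∀ l : Projectivization K (Fin m → K), l.rep ∈ W → a ≤ l.mulHeight) →
        ∃ σ : ℕ, 1 ≤ σ ∧ W ≤ Submodule.span K {x : Fin m → K | x ∈ W ∧ x ∈ bx K m σ} ∧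
          (σ : ℝ) ^ dg K ≤ C * HW W / a

/-- The function `Λ` in the count of the lines. -/
structure IsLam (Λ : ℝ → ℝ) (C : ℝ) : Prop where
  mono : Monotone Λ
  zero : ∀ u, u < 1 → Λ u = 0
  nonneg : ∀ u, 0 ≤ Λ u
  le : ∀ u, 1 ≤ u → Λ u ≤ C * u
  pos : 1 / C ≤ Λ C

/-- GM-17 (AVG): the lines of bounded height in a plane. -/
def S_AVG : Prop :=
  ∀ (K : Type) [Field K] [NumberField K] (m : ℕ), ∃ (Λ : ℝ → ℝ) (κ1 C η : ℝ), 0 < κ1 ∧ 1 ≤ C ∧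
    0 < η ∧ IsLam Λ C ∧ ∀ W : Submodule K (Fin m → K), Module.finrank K W = 2 →
      ∀ (a : ℝ) (b : ℕ), 0 < a →
        (∀ l : Projectivization K (Fin m → K), l.rep ∈ W → a ≤ l.mulHeight) →
        C * HW W / a ≤ (b : ℝ) ^ dg K →
        |∑ᶠ l ∈ {l : Projectivization K (Fin m → K) | l.rep ∈ W ∧ l.mulHeight ≤ (b : ℝ) ^ dg K},
            Λ ((b : ℝ) ^ dg K / l.mulHeight) - κ1 * VW W * ((b : ℝ) ^ dg K) ^ 2 / HW W| ≤
          C * (((b : ℝ) ^ dg K) ^ 2 / HW W) * (HW W / (a * (b : ℝ) ^ dg K)) ^ η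

/-! ## From pairs of lines to planes (abstract) -/

/-- Planes and lines with heights. -/
structure Sys {PL L : Type} (On : L → PL → Prop) (h : L → ℝ) (H v : PL → ℝ) (Λ : ℝ → ℝ)
    (r d : ℕ) (C η : ℝ) : Prop where
  hr : 3 ≤ r
  hd : 1 ≤ d
  hC : 1 ≤ C
  hη : 0 < η
  one_le_h : ∀ l, 1 ≤ h l
  one_le_H : ∀ W, 1 ≤ H W
  uniq : ∀ l l' W W', l ≠ l' → On l W → On l' W → On l W' → On l' W' → W = W'
  fin : ∀ T : ℝ, {l | h l ≤ T}.Finite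
  pairs : ∀ T T' : ℝ, 1 ≤ T → 1 ≤ T' →
    (({p : L × L | p.1 ≠ p.2 ∧ (∃ W, On p.1 W ∧ On p.2 W) ∧ h p.1 ≤ T ∧ h p.2 ≤ T'}.ncard : ℕ) :
      ℝ) ≤ C * (T ^ r * T' ^ r)
  upper : ∀ l l' W, l ≠ l' → On l W → On l' W → H W ≤ C * (h l * h l')
  lower : ∀ W, ∃ l l', l ≠ l' ∧ On l W ∧ On l' W ∧ h l * h l' ≤ C * H W
  v_bd : ∀ W, 1 / C ≤ v W ∧ v W ≤ C
  lam : IsLam Λ C
  avg : ∀ (W : PL) (a : ℝ) (b : ℕ), 0 < a → (∀ l, On l W → a ≤ h l) → C * H W / a ≤ (b : ℝ) ^ d →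
    |∑ᶠ l ∈ {l : L | On l W ∧ h l ≤ (b : ℝ) ^ d}, Λ ((b : ℝ) ^ d / h l) -
        v W * ((b : ℝ) ^ d) ^ 2 / H W| ≤
      C * (((b : ℝ) ^ d) ^ 2 / H W) * (H W / (a * (b : ℝ) ^ d)) ^ η

/-- Upper bounds. -/
structure Ubd {PL L : Type} (On : L → PL → Prop) (h : L → ℝ) (H : PL → ℝ) (r : ℕ) (C : ℝ) :
    Prop where
  one_le : 1 ≤ C
  cnt : ∀ (W : PL) (T : ℝ), 2 ≤ {l : L | On l W ∧ h l ≤ T}.ncard →
    (({l : L | On l W ∧ h l ≤ T}.ncard : ℕ) : ℝ) ≤ C * (T ^ 2 / H W)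
  fin : ∀ B : ℝ, {W : PL | H W ≤ B}.Finite
  tot : ∀ B : ℝ, 1 ≤ B → (({W : PL | H W ≤ B}.ncard : ℕ) : ℝ) ≤ C * B ^ r
  skew : ∀ B κ : ℝ, 1 ≤ B → 0 < κ →
    (({W : PL | H W ≤ B ∧ ∃ l, On l W ∧ h l ^ 2 ≤ κ * H W}.ncard : ℕ) : ℝ) ≤ C * κ * B ^ r

/-- GM-18 (UBS): upper bounds. -/
def S_UBS : Prop :=
  ∀ (PL L : Type) (On : L → PL → Prop) (h : L → ℝ) (H v : PL → ℝ) (Λ : ℝ → ℝ) (r d : ℕ)
    (C η : ℝ), Sys On h H v Λ r d C η → ∃ C' : ℝ, Ubd On h H r C'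

/-- GM-19 (TAIL): few pairs of lines are in planes of small height. -/
def S_TAIL : Prop :=
  ∀ (PL L : Type) (On : L → PL → Prop) (h : L → ℝ) (H v : PL → ℝ) (Λ : ℝ → ℝ) (r d : ℕ)
    (C η C' : ℝ), Sys On h H v Λ r d C η → Ubd On h H r C' → ∃ C2 : ℝ, 0 ≤ C2 ∧
    ∀ T z : ℝ, 1 ≤ T → 1 ≤ z →
      (({p : L × L | p.1 ≠ p.2 ∧ (∃ W, On p.1 W ∧ On p.2 W ∧ H W ≤ T ^ 2 / z) ∧ h p.1 ≤ T ∧
        h p.2 ≤ T}.ncard : ℕ) : ℝ) ≤ C2 / z * T ^ (2 * r)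

/-- The weighted sum over the pairs of lines. -/
noncomputable def PS {PL L : Type} (On : L → PL → Prop) (h : L → ℝ) (H v : PL → ℝ) (Λ : ℝ → ℝ)
    (w : PL → ℝ) (g : ℝ → ℝ) (ρ T : ℝ) : ℝ :=
  ∑ᶠ p ∈ {p : (L × L) × PL | p.1.1 ≠ p.1.2 ∧ On p.1.1 p.2 ∧ On p.1.2 p.2 ∧ h p.1.1 ≤ T ∧
      h p.1.2 ≤ T},
    Λ (T / h p.1.1) * Λ (T / h p.1.2) * (H p.2 / T ^ 2) ^ 2 * g (ρ * (H p.2 / T ^ 2)) *
      (w p.2 / v p.2 ^ 2)

/-- GM-20 (CAU): from pairs of lines to planes. -/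
def S_CAU : Prop :=
  ∀ (PL L : Type) (On : L → PL → Prop) (h : L → ℝ) (H v : PL → ℝ) (Λ : ℝ → ℝ) (r d : ℕ)
    (C η C' : ℝ) (w : PL → ℝ), Sys On h H v Λ r d C η → Ubd On h H r C' →
    (∀ W, 0 ≤ w W) → (∀ W, w W ≤ 1) →
    (∀ (ρ : ℝ) (g : ℝ → ℝ), 1 ≤ ρ → (∃ Γ : ℝ, ∀ u v, |g u - g v| ≤ Γ * |u - v|) →
      (∀ u, 0 ≤ g u) → (∀ u, g u ≤ 1) →
      ∃ c : ℝ, Filter.Tendsto (fun T : ℝ => PS On h H v Λ w g ρ T / T ^ (2 * r)) Filter.atTop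
        (nhds c)) →
    ∃ c : ℝ, Filter.Tendsto (fun B : ℝ => (∑ᶠ W ∈ {W : PL | H W ≤ B}, w W) / B ^ r) Filter.atTop
      (nhds c)

/-- GM-21 (POS): lower bound. -/
def S_POS : Prop :=
  ∀ (PL L : Type) (On : L → PL → Prop) (h : L → ℝ) (H v : PL → ℝ) (Λ : ℝ → ℝ) (r d : ℕ)
    (C η C' c T0 : ℝ), Sys On h H v Λ r d C η → Ubd On h H r C' → 0 < c →
    (∀ T : ℝ, T0 ≤ T → c * T ^ (2 * r) ≤
      (({p : L × L | p.1 ≠ p.2 ∧ (∃ W, On p.1 W ∧ On p.2 W) ∧ h p.1 ≤ T ∧ h p.2 ≤ T}.ncard :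
        ℕ) : ℝ)) →
    ∃ c' B0 : ℝ, 0 < c' ∧ ∀ B : ℝ, B0 ≤ B → c' * B ^ r ≤ (({W : PL | H W ≤ B}.ncard : ℕ) : ℝ)

/-- GM-22 (INT): sums of functions of the heights and the distance over pairs of lines. -/
def S_INT : Prop :=
  ∀ (Y : Type) (h0 h1 ψ F : Y → ℝ) (ψz : ℕ → Y → ℝ) (Λ : ℝ → ℝ) (r : ℕ) (C : ℝ), 1 ≤ C →
    (∀ p, 1 ≤ h0 p) → (∀ p, 1 ≤ h1 p) → (∀ T : ℝ, {p | h0 p ≤ T ∧ h1 p ≤ T}.Finite) →
    (∀ T : ℝ, 1 ≤ T → (({p | h0 p ≤ T ∧ h1 p ≤ T}.ncard : ℕ) : ℝ) ≤ C * T ^ (2 * r)) →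
    (∀ (z : ℕ) (T : ℝ), 1 ≤ z → 1 ≤ T →
      (({p | h0 p ≤ T ∧ h1 p ≤ T ∧ ψ p < 1 / (z : ℝ)}.ncard : ℕ) : ℝ) ≤
        C / z * T ^ (2 * r)) →
    (∀ p, 0 ≤ ψ p) → (∀ (z : ℕ) (p : Y), 1 ≤ z → ψ p ≤ ψz z p ∧ ψz z p ≤ C) →
    (∀ (z : ℕ) (p : Y), 1 ≤ z → 1 / (z : ℝ) ≤ ψ p → ψz z p = ψ p) →
    (∀ p, 0 ≤ F p ∧ F p ≤ C) → IsLam Λ C →
    (∀ (z : ℕ) (G : ℝ → ℝ) (α β : ℝ), 1 ≤ z →
      (∃ Γ : ℝ, ∀ u v, |G u - G v| ≤ Γ * |u - v|) → (∀ u, 0 ≤ G u) → (∀ u, G u ≤ 1) → 0 < α →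
      0 < β → ∃ c : ℝ, Filter.Tendsto (fun T : ℝ =>
        (∑ᶠ p ∈ {p : Y | h0 p ≤ α * T ∧ h1 p ≤ β * T}, ψz z p ^ 2 * G (ψz z p) * F p) /
          T ^ (2 * r)) Filter.atTop (nhds c)) →
    ∀ (ρ : ℝ) (g : ℝ → ℝ), 1 ≤ ρ → (∃ Γ : ℝ, ∀ u v, |g u - g v| ≤ Γ * |u - v|) →
      (∀ u, 0 ≤ g u) → (∀ u, g u ≤ 1) → ∃ c : ℝ, Filter.Tendsto (fun T : ℝ =>
        (∑ᶠ p ∈ {p : Y | h0 p ≤ T ∧ h1 p ≤ T},
          Λ (T / h0 p) * Λ (T / h1 p) * (ψ p * (h0 p * h1 p) / T ^ 2) ^ 2 *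
            g (ρ * (ψ p * (h0 p * h1 p) / T ^ 2)) * F p) / T ^ (2 * r)) Filter.atTop (nhds c)

/-- GM-23 (NIC): products, compositions and inverses. -/
def S_NIC : Prop :=
  ∀ (K : Type) [Field K] [NumberField K] (N : ℕ) (Z : Vs K (nn N) → Prop)
    (S : Finset (FinitePlace K)), Nice Z S (fun _ => 1) ∧
    (∀ F1 F2 : Vs K (nn N) → ℝ, Nice Z S F1 → Nice Z S F2 → Nice Z S fun P => F1 P * F2 P) ∧
    (∀ (F : Vs K (nn N) → ℝ) (G : ℝ → ℝ) (Λ : ℝ), Nice Z S F →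
      (∀ u v, |G u - G v| ≤ Λ * |u - v|) → (∀ u, 0 ≤ G u) → (∀ u, G u ≤ 1) →
      Nice Z S fun P => G (F P)) ∧
    (∀ (F : Vs K (nn N) → ℝ) (A : ℝ), Nice Z S F → 0 < A → (∀ P, Z P → A ≤ F P) →
      Nice Z S fun P => (F P)⁻¹) ∧
    ∀ (F : Vs K (nn N) → ℝ) (S' : Finset (FinitePlace K)), Nice Z S F → S ⊆ S' → Nice Z S' F

/-- GM-24 (APL): approximation (abstract). -/
def S_APL : Prop :=
  ∀ (Y : Type) (Z : Y → Prop) (A : ℝ → Set Y) (f : Y → ℝ) (e : ℕ) (C : ℝ),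
    (∀ T, (A T).Finite) → (∀ T : ℝ, 1 ≤ T → (((A T).ncard : ℕ) : ℝ) ≤ C * T ^ e) →
    Filter.Tendsto (fun T : ℝ => (({y | y ∈ A T ∧ ¬ Z y}.ncard : ℕ) : ℝ) / T ^ e) Filter.atTop
      (nhds 0) →
    (∀ ε : ℝ, 0 < ε → ∃ (w : Y → ℝ) (c : ℝ), (∀ y, |w y| ≤ 1) ∧ (∀ y, Z y → |w y - f y| ≤ ε) ∧
      Filter.Tendsto (fun T : ℝ => (∑ᶠ y ∈ A T, w y) / T ^ e) Filter.atTop (nhds c)) →
    ∃ c : ℝ, Filter.Tendsto (fun T : ℝ => (∑ᶠ y ∈ {y | y ∈ A T ∧ Z y}, f y) / T ^ e) Filter.atTop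
      (nhds c)

end Pool.Agent.Q35.GM
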