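import Mathlib
import Pool.Agent.Q35.GM.Stm

/-!
Project GM: basic lemmas.
-/

set_option autoImplicit false

namespace Pool.Agent.Q35.GM

open Finset Function NumberField MvPolynomial
open Pool.Agent.Q35.SM (Cof Vs ev)

section

variable {K : Type} [Field K]

theorem ev_cof {N : ℕ} (F : Type) [CommRing F] [Algebra K F]
    (M : Matrix (Fin (N + 1)) (Fin (N + 1)) K) (x : Vs F (nn N)) :
    ev F (cof M) x = bil F M (x 0) (x 1) := by
  unfold ev bil cof
  rw [← Fintype.sum_prod_type' (f := fun p q => algebraMap K F (M p q) * (x 0 p * x 1 q))]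
  refine Fintype.sum_equiv (finTwoArrowEquiv (Fin (N + 1))) _ _ fun a => ?_
  simp [finTwoArrowEquiv, Fin.prod_univ_two]

theorem plu_comb {F : Type} [CommRing F] {m : ℕ} (a b c d : F) (x y : Fin m → F) :
    plu (a • x + b • y) (c • x + d • y) = (a * d - b * c) • plu x y := by
  funext p
  simp only [plu, Pi.add_apply, Pi.smul_apply, smul_eq_mul]
  ring

theorem plu_smul {F : Type} [CommRing F] {m : ℕ} (a b : F) (x y : Fin m → F) :
    plu (a • x) (b • y) = (a * b) • plu x y := by
  funext p
  simp only [plu, Pi.smul_apply, smul_eq_mul]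
  ring

theorem plu_zero_left {F : Type} [CommRing F] {m : ℕ} (y : Fin m → F) : plu 0 y = 0 := by
  funext p
  simp [plu]

theorem plu_zero_right {F : Type} [CommRing F] {m : ℕ} (x : Fin m → F) : plu x 0 = 0 := by
  funext p
  simp [plu]

theorem bil_comb {F : Type} [CommRing F] [Algebra K F] {m : ℕ} {M : Matrix (Fin m) (Fin m) K}
    (hM : Alt M) (a b c d : F) (x y : Fin m → F) :
    bil F M (a • x + b • y) (c • x + d • y) = (a * d - b * c) * bil F M x y := by
  have hs : ∀ p q, algebraMap K F (M q p) = -algebraMap K F (M p q) := by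
    intro p q
    have h1 := congrFun (congrFun hM.1 p) q
    rw [Matrix.transpose_apply, Matrix.neg_apply] at h1
    rw [h1, map_neg]
  have hd : ∀ u v : Fin m → F, bil F M u v = -bil F M v u := by
    intro u v
    unfold bil
    rw [Finset.sum_comm, ← Finset.sum_neg_distrib]
    refine Finset.sum_congr rfl fun p _ => ?_
    rw [← Finset.sum_neg_distrib]
    refine Finset.sum_congr rfl fun q _ => ?_
    rw [hs]
    ring
  have hself : ∀ u : Fin m → F, bil F M u u = 0 := by
    intro u
    unfold bil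
    rw [← Fintype.sum_prod_type' (f := fun p q => algebraMap K F (M p q) * (u p * u q))]
    refine Finset.sum_involution (fun p _ => (p.2, p.1)) (fun p _ => ?_) (fun p _ hp hc => ?_)
      (fun p _ => Finset.mem_univ _) (fun p _ => rfl)
    · show algebraMap K F (M p.1 p.2) * (u p.1 * u p.2) +
        algebraMap K F (M p.2 p.1) * (u p.2 * u p.1) = 0
      rw [hs p.1 p.2]
      ring
    · apply hp
      have h1 : p.1 = p.2 := (Prod.ext_iff.1 hc).2
      rw [h1, hM.2, map_zero, zero_mul]
  have hadd : ∀ (s t : F) (u v w : Fin m → F),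
      bil F M (s • u + t • v) w = s * bil F M u w + t * bil F M v w := by
    intro s t u v w
    unfold bil
    rw [Finset.mul_sum, Finset.mul_sum, ← Finset.sum_add_distrib]
    refine Finset.sum_congr rfl fun p _ => ?_
    rw [Finset.mul_sum, Finset.mul_sum, ← Finset.sum_add_distrib]
    refine Finset.sum_congr rfl fun q _ => ?_
    simp only [Pi.add_apply, Pi.smul_apply, smul_eq_mul]
    ring
  rw [hadd, hd x, hd y, hadd, hadd, hself, hself, hd y x]
  ring

theorem linInd_iff {m : ℕ} (x y : Fin m → K) :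
    LinearIndependent K ![x, y] ↔ ∀ a b : K, a • x + b • y = 0 → a = 0 ∧ b = 0 :=
  LinearIndependent.pair_iff

theorem span_finrank {m : ℕ} {x y : Fin m → K} (h : LinearIndependent K ![x, y]) :
    Module.finrank K (Submodule.span K {x, y}) = 2 := by
  have h1 := finrank_span_eq_card h
  rw [Fintype.card_fin] at h1
  have h2 : Set.range ![x, y] = {x, y} := by
    rw [Matrix.range_cons, Matrix.range_cons, Matrix.range_empty, Set.union_empty,
      Set.singleton_union]
  rwa [h2] at h1

theorem exists_basis {m : ℕ} {W : Submodule K (Fin m → K)} (h : Module.finrank K W = 2) :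
    ∃ p : (Fin m → K) × (Fin m → K), LinearIndependent K ![p.1, p.2] ∧
      Submodule.span K {p.1, p.2} = W := by
  have hb := Module.finBasisOfFinrankEq K W h
  refine ⟨((hb 0 : W), (hb 1 : W)), ?_, ?_⟩
  · have h1 := hb.linearIndependent.map' W.subtype (Submodule.ker_subtype W)
    have h2 : (W.subtype ∘ fun i => hb i) = ![((hb 0 : W) : Fin m → K), ((hb 1 : W) : Fin m → K)] := by
      funext i
      fin_cases i <;> rfl
    rw [← h2]
    exact h1
  · have h1 := congrArg (Submodule.map W.subtype) hb.span_eq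
    rw [Submodule.map_span, Submodule.map_top, Submodule.range_subtype] at h1
    refine Eq.trans ?_ h1
    congr 1
    ext v
    constructor
    · rintro (rfl | rfl)
      · exact ⟨hb 0, ⟨0, rfl⟩, rfl⟩
      · exact ⟨hb 1, ⟨1, rfl⟩, rfl⟩
    · rintro ⟨_, ⟨i, rfl⟩, rfl⟩
      fin_cases i
      · left
        rfl
      · right
        rfl

theorem bs_spec {m : ℕ} {W : Submodule K (Fin m → K)} (h : Module.finrank K W = 2) :
    LinearIndependent K ![(bs W).1, (bs W).2] ∧ Submodule.span K {(bs W).1, (bs W).2} = W := by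
  unfold bs
  rw [dif_pos (exists_basis h)]
  exact (exists_basis h).choose_spec

theorem bs_mem {m : ℕ} {W : Submodule K (Fin m → K)} (h : Module.finrank K W = 2) :
    (bs W).1 ∈ W ∧ (bs W).2 ∈ W := by
  obtain ⟨-, h2⟩ := bs_spec h
  have h3 : (bs W).1 ∈ Submodule.span K {(bs W).1, (bs W).2} :=
    Submodule.subset_span (Set.mem_insert _ _)
  have h4 : (bs W).2 ∈ Submodule.span K {(bs W).1, (bs W).2} :=
    Submodule.subset_span (Set.mem_insert_of_mem _ rfl)
  exact ⟨h2.le h3, h2.le h4⟩

/-- Change of basis. -/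
theorem change {m : ℕ} {W : Submodule K (Fin m → K)} (h : Module.finrank K W = 2)
    {x y : Fin m → K} (hxy : LinearIndependent K ![x, y]) (hx : x ∈ W) (hy : y ∈ W) :
    ∃ a b c d : K, a * d - b * c ≠ 0 ∧ x = a • (bs W).1 + b • (bs W).2 ∧
      y = c • (bs W).1 + d • (bs W).2 := by
  obtain ⟨h1, h2⟩ := bs_spec h
  rw [← h2, Submodule.mem_span_pair] at hx hy
  obtain ⟨a, b, hab⟩ := hx
  obtain ⟨c, d, hcd⟩ := hy
  refine ⟨a, b, c, d, fun h3 => ?_, hab.symm, hcd.symm⟩
  rw [linInd_iff] at hxy
  have h4 : d • x + (-b) • y = 0 := by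
    rw [← hab, ← hcd]
    have e : d • (a • (bs W).1 + b • (bs W).2) + (-b) • (c • (bs W).1 + d • (bs W).2) =
        (a * d - b * c) • (bs W).1 := by
      funext p
      simp only [Pi.add_apply, Pi.smul_apply, smul_eq_mul]
      ring
    rw [e, h3, zero_smul]
  have h5 : (-c) • x + a • y = 0 := by
    rw [← hab, ← hcd]
    have e : (-c) • (a • (bs W).1 + b • (bs W).2) + a • (c • (bs W).1 + d • (bs W).2) =
        (a * d - b * c) • (bs W).2 := by
      funext p
      simp only [Pi.add_apply, Pi.smul_apply, smul_eq_mul]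
      ring
    rw [e, h3, zero_smul]
  obtain ⟨hd, hb⟩ := hxy _ _ h4
  obtain ⟨hc, ha⟩ := hxy _ _ h5
  rw [neg_eq_zero] at hb hc
  rw [ha, hb] at hab
  rw [zero_smul, zero_smul, add_zero] at hab
  have h6 := hxy 1 0 (by rw [← hab]; simp)
  exact one_ne_zero h6.1

end

section

variable {K : Type} [Field K] [NumberField K]

theorem HW_eq {m : ℕ} {W : Submodule K (Fin m → K)} (h : Module.finrank K W = 2)
    {x y : Fin m → K} (hxy : LinearIndependent K ![x, y]) (hx : x ∈ W) (hy : y ∈ W) :
    HW W = Height.mulHeight (plu x y) := by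
  obtain ⟨a, b, c, d, h1, rfl, rfl⟩ := change h hxy hx hy
  rw [plu_comb, Height.mulHeight_smul_eq_mulHeight _ h1]
  rfl

theorem VW_eq (hVF : S_VF) {m : ℕ} {W : Submodule K (Fin m → K)} (h : Module.finrank K W = 2)
    {x y : Fin m → K} (hxy : LinearIndependent K ![x, y]) (hx : x ∈ W) (hy : y ∈ W) :
    VW W = ∏ w : InfinitePlace K, FV w x y := by
  obtain ⟨C, -, hC, -⟩ := hVF K m
  obtain ⟨a, b, c, d, h1, rfl, rfl⟩ := change h hxy hx hy
  unfold VW
  refine Finset.prod_congr rfl fun w _ => ?_
  exact (((hC w _ _ (bs_spec h).1).2.2.2) a b c d h1).symm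

end

end Pool.Agent.Q35.GM
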