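import Mathlib
import Pool.Agent.Q35.GM.Bas
import Pool.Agent.Q35.EO.Fin
import Pool.Agent.Q79.SM.Bas

/-!
Project GM: the tower and the open set.
-/

set_option autoImplicit false

namespace Pool.Agent.Q35.GM

open Finset Function NumberField MvPolynomial
open Pool.Agent.Q35.SM (Cof Vs Var Pol ev pv MH Opn Cut Twr UU FF UU_smul)

section

variable {K : Type} [Field K]

theorem bil_neg {F : Type} [CommRing F] [Algebra K F] {m : ℕ} {M : Matrix (Fin m) (Fin m) K}
    (hM : Alt M) (x y : Fin m → F) : bil F M y x = -bil F M x y := by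
  have h := bil_comb hM (0 : F) 1 1 0 x y
  simp only [zero_smul, one_smul, zero_add, add_zero] at h
  rw [h]
  ring

theorem gd_smul {F : Type} [Field F] [Algebra K F] {m k : ℕ}
    {M : Fin k → Matrix (Fin m) (Fin m) K} {a : F} (ha : a ≠ 0) {x : Fin m → F}
    (h : Gd F M x) : Gd F M (a • x) := by
  unfold Gd at h ⊢
  have h1 := h.units_smul (fun _ => Units.mk0 a ha)
  convert h1 using 1
  funext t b
  show bil F (M t) (a • x) (Pi.single b 1) = a * bil F (M t) x (Pi.single b 1)
  unfold bil
  rw [Finset.mul_sum]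
  refine Finset.sum_congr rfl fun p _ => ?_
  rw [Finset.mul_sum]
  refine Finset.sum_congr rfl fun q _ => ?_
  simp only [Pi.smul_apply, smul_eq_mul]
  ring

theorem gd_ne_zero {F : Type} [Field F] [Algebra K F] {m k : ℕ}
    {M : Fin k → Matrix (Fin m) (Fin m) K} (hk : 1 ≤ k) {x : Fin m → F}
    (h : Gd F M x) : x ≠ 0 := by
  rintro rfl
  have h1 := h.ne_zero ⟨0, hk⟩
  apply h1
  funext a
  show bil F (M ⟨0, hk⟩) 0 (Pi.single a 1) = 0
  unfold bil
  simp

/-- Goodness over an extension field. -/
theorem gd_of_map {F F' : Type} [Field F] [Algebra K F] [Field F'] [Algebra K F'] [Algebra F F']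
    [IsScalarTower K F F'] {m k : ℕ} {M : Fin k → Matrix (Fin m) (Fin m) K} {x : Fin m → F}
    (h : Gd F' M fun a => algebraMap F F' (x a)) : Gd F M x := by
  unfold Gd at h ⊢
  rw [Fintype.linearIndependent_iff] at h ⊢
  intro g hg t
  have h1 := h (fun t => algebraMap F F' (g t)) (by
    funext a
    have h2 := congrArg (algebraMap F F') (congrFun hg a)
    simp only [Finset.sum_apply, Pi.smul_apply, smul_eq_mul, Pi.zero_apply, map_sum, map_mul,
      map_zero] at h2 ⊢
    rw [← h2]
    refine Finset.sum_congr rfl fun s _ => ?_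
    congr 1
    unfold bil
    rw [map_sum]
    refine Finset.sum_congr rfl fun p _ => ?_
    rw [map_sum]
    refine Finset.sum_congr rfl fun q _ => ?_
    rw [map_mul, map_mul, ← IsScalarTower.algebraMap_apply K F F']
    congr 2
    by_cases hq : q = a
    · subst hq
      simp
    · simp [Pi.single_eq_of_ne hq]) t
  exact (map_eq_zero _).1 h1

theorem all_gd {F : Type} [Field F] [Algebra K F] {m k : ℕ}
    {M : Fin k → Matrix (Fin m) (Fin m) K} {x y : Fin m → F} (h : All F M x y) :
    Gd F M x ∧ Gd F M y := by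
  constructor
  · have h1 := h ![1, 0] (fun h0 => by
      have := congrFun h0 0
      simp at this)
    apply gd_of_map (F' := AlgebraicClosure F)
    convert h1 using 1
    funext a
    simp
  · have h1 := h ![0, 1] (fun h0 => by
      have := congrFun h0 1
      simp at this)
    apply gd_of_map (F' := AlgebraicClosure F)
    convert h1 using 1
    funext a
    simp

theorem all_comb {F : Type} [Field F] [Algebra K F] {m k : ℕ}
    {M : Fin k → Matrix (Fin m) (Fin m) K} {x y : Fin m → F} (h : All F M x y) (a b c d : F)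
    (hd : a * d - b * c ≠ 0) : All F M (a • x + b • y) (c • x + d • y) := by
  intro z hz
  have h1 := h ![z 0 * algebraMap F _ a + z 1 * algebraMap F _ c,
    z 0 * algebraMap F _ b + z 1 * algebraMap F _ d] (fun h0 => by
      have e0 := congrFun h0 0
      have e1 := congrFun h0 1
      simp only [Matrix.cons_val_zero, Matrix.cons_val_one, Pi.zero_apply] at e0 e1
      have hD : algebraMap F (AlgebraicClosure F) (a * d - b * c) ≠ 0 := by
        rw [Ne, map_eq_zero]
        exact hd
      rw [map_sub, map_mul, map_mul] at hD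
      apply hz
      funext i
      fin_cases i
      · show z 0 = 0
        have e2 : z 0 * (algebraMap F (AlgebraicClosure F) a * algebraMap F _ d -
            algebraMap F _ b * algebraMap F _ c) = 0 := by
          linear_combination (algebraMap F (AlgebraicClosure F) d) * e0 -
            (algebraMap F (AlgebraicClosure F) c) * e1
        exact (mul_eq_zero.1 e2).resolve_right hD
      · show z 1 = 0
        have e2 : z 1 * (algebraMap F (AlgebraicClosure F) a * algebraMap F _ d -
            algebraMap F _ b * algebraMap F _ c) = 0 := by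
          linear_combination (algebraMap F (AlgebraicClosure F) a) * e1 -
            (algebraMap F (AlgebraicClosure F) b) * e0
        exact (mul_eq_zero.1 e2).resolve_right hD)
  convert h1 using 1
  funext p
  simp only [Pi.add_apply, Pi.smul_apply, smul_eq_mul, map_add, map_mul, Matrix.cons_val_zero,
    Matrix.cons_val_one]
  ring

theorem all_ind {m k : ℕ} {M : Fin k → Matrix (Fin m) (Fin m) K} (hk : 1 ≤ k) {x y : Fin m → K}
    (h : All K M x y) : LinearIndependent K ![x, y] := by
  rw [linInd_iff]
  intro a b hab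
  by_contra hne
  have h1 := h ![algebraMap K _ a, algebraMap K _ b] (fun h0 => by
    apply hne
    have e0 := congrFun h0 0
    have e1 := congrFun h0 1
    simp only [Matrix.cons_val_zero, Matrix.cons_val_one, Pi.zero_apply, map_eq_zero] at e0 e1
    exact ⟨e0, e1⟩)
  apply gd_ne_zero hk h1
  funext p
  have h2 := congrArg (algebraMap K (AlgebraicClosure K)) (congrFun hab p)
  simpa using h2

/-- The pairs of vectors which span a good plane in `X`. -/
def ZZ {N k : ℕ} (M : Fin k → Matrix (Fin (N + 1)) (Fin (N + 1)) K) (P : Vs K (nn N)) : Prop :=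
  (∀ t, bil K (M t) (P 0) (P 1) = 0) ∧ All K M (P 0) (P 1)

theorem zz_comb {N k : ℕ} {M : Fin k → Matrix (Fin (N + 1)) (Fin (N + 1)) K}
    (hM : ∀ t, Alt (M t)) {P : Vs K (nn N)} (h : ZZ M P) (a b c d : K) (hd : a * d - b * c ≠ 0)
    {Q : Vs K (nn N)} (h0 : Q 0 = a • P 0 + b • P 1) (h1 : Q 1 = c • P 0 + d • P 1) : ZZ M Q := by
  refine ⟨fun t => ?_, ?_⟩
  · rw [h0, h1, bil_comb (hM t), h.1 t, mul_zero]
  · rw [h0, h1]
    exact all_comb h.2 a b c d hd

theorem zz_smul {N k : ℕ} {M : Fin k → Matrix (Fin (N + 1)) (Fin (N + 1)) K}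
    (hM : ∀ t, Alt (M t)) (a : Fin 2 → K) (ha : ∀ i, a i ≠ 0) (P : Vs K (nn N)) (h : ZZ M P) :
    ZZ M fun i => a i • P i := by
  refine zz_comb hM h (a 0) 0 0 (a 1) ?_ ?_ ?_
  · have := mul_ne_zero (ha 0) (ha 1)
    simpa using this
  · simp
  · simp

/-- The tower for the alternating forms. -/
theorem towerG (hT0 : Pool.Agent.Q35.SM.S_T) (hD : Pool.Agent.Q35.SM.S_D) (hKER : S_KER)
    [CharZero K] {N k : ℕ} (hN : 4 * k ≤ N)
    {M : Fin k → Matrix (Fin (N + 1)) (Fin (N + 1)) K} (hM : ∀ t, Alt (M t)) (hS : Smo M) :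
    ∃ G : Finset (Fin 2) → Finset (Pol K (nn N)),
      Twr k (k * Fintype.card (Fin 2) + 1) (fun t => cof (M t)) G ∧
      (∃ x : Vs K (nn N), Opn K (G ∅) x) ∧
      ∀ P : Vs K (nn N), UU (fun t => cof (M t)) G P ↔
        (∀ t, bil K (M t) (P 0) (P 1) = 0) ∧ Gd K M (P 0) ∧ Gd K M (P 1) := by
  classical
  have h2 : 2 ≤ Fintype.card (Fin 2) := by simp
  obtain ⟨G, hT⟩ := hT0 K (Fin 2) (nn N) k (k * Fintype.card (Fin 2) + 1)
    (fun t => cof (M t)) h2 (by omega)
  -- the start of the tower
  have h0 : ∃ x : Vs K (nn N), Opn K (G ∅) x := by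
    by_contra hcon
    push Not at hcon
    obtain ⟨j, F, _, _, x, μ, B, hμ, hy, hBj, hBl, hind⟩ :=
      hD K (Fin 2) (nn N) k (k * Fintype.card (Fin 2) + 1) (fun t => cof (M t)) G hT h2 (by omega)
        (fun i => by
          show k * Fintype.card (Fin 2) + 1 ≤ N + 1
          rw [Fintype.card_fin]
          omega) hcon
    obtain ⟨l, hl⟩ : ∃ l : Fin 2, l ≠ j := ⟨1 - j, by fin_cases j <;> decide⟩
    have hcard := hBl l hl
    -- the kernel
    have hker : ∀ v : Fin (N + 1) → F, ∑ t, μ t * bil F (M t) (x l) v = 0 := by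
      intro v
      have h3 := hy v
      by_cases hj : j = 1
      · subst hj
        have hl0 : l = 0 := by
          revert hl
          fin_cases l <;> simp
        subst hl0
        rw [← h3]
        refine Finset.sum_congr rfl fun t _ => ?_
        rw [ev_cof, update_of_ne (by decide), update_self]
      · have hj0 : j = 0 := by
          revert hj
          fin_cases j <;> simp
        subst hj0
        have hl1 : l = 1 := by
          revert hl
          fin_cases l <;> simp
        subst hl1
        have h4 : ∑ t, μ t * bil F (M t) (x 1) v = -∑ t, μ t * ev F (cof (M t)) (update x 0 v) := by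
          rw [← Finset.sum_neg_distrib]
          refine Finset.sum_congr rfl fun t _ => ?_
          rw [ev_cof, update_self, update_of_ne (by decide), bil_neg (hM t) (x 1) v]
          ring
        rw [h4, h3, neg_zero]
    -- the coordinates
    set B' : Finset (Fin (N + 1)) := univ.filter fun a => (⟨l, a⟩ : Var (nn N)) ∈ B with hB'
    have hcard' : (B.filter fun v => v.1 = l).card = B'.card := by
      refine (Finset.card_bij (fun a _ => (⟨l, a⟩ : Var (nn N))) (fun a ha => ?_)
        (fun a _ b _ hab => ?_) (fun v hv => ?_)).symm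
      · rw [hB', mem_filter] at ha
        rw [mem_filter]
        exact ⟨ha.2, rfl⟩
      · have h5 := eq_of_heq (Sigma.mk.inj hab).2
        exact h5
      · obtain ⟨i, a⟩ := v
        rw [mem_filter] at hv
        obtain ⟨hv1, hv2⟩ := hv
        have hv3 : i = l := hv2
        subst hv3
        exact ⟨a, by rw [hB', mem_filter]; exact ⟨mem_univ _, hv1⟩, rfl⟩
    have hind' : AlgebraicIndependent K fun b : B' => x l b := by
      have h6 := hind.comp (fun b : B' => (⟨⟨l, b.1⟩, (mem_filter.1 b.2).2⟩ : B))
        (fun b b' hbb => by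
          have h7 := congrArg Subtype.val hbb
          have h8 := eq_of_heq (Sigma.mk.inj h7).2
          exact Subtype.ext h8)
      exact h6
    have h9 := hKER K (N + 1) k M hM hS F μ (x l) B' hμ hker hind'
    have h10 : nn N l + 2 = N + 2 := rfl
    rw [h10, hcard', Fintype.card_fin] at hcard
    omega
  refine ⟨G, hT, h0, fun P => ?_⟩
  have h0' : Opn K (G ∅) P := by
    obtain ⟨x, hx⟩ := h0
    exact (Pool.Agent.Q79.SM.opn_congr (hT.dep ∅) fun l hl => absurd hl (by simp)).1 hx
  have e0 : (univ.erase (1 : Fin 2)) = {0} := by decide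
  have e1 : (univ.erase (0 : Fin 2)) = {1} := by decide
  have hb0 : Opn K (G {0}) P ↔ Gd K M (P 0) := by
    rw [← e0, hT.base 1 K P]
    unfold Gd
    have : (fun (t : Fin k) (a : Fin (nn N 1 + 1)) =>
        ev K (cof (M t)) (update P 1 (Pi.single a 1))) =
        fun (t : Fin k) (a : Fin (N + 1)) => bil K (M t) (P 0) (Pi.single a 1) := by
      funext t a
      rw [ev_cof, update_of_ne (by decide), update_self]
    rw [this]
  have hb1 : Opn K (G {1}) P ↔ Gd K M (P 1) := by
    rw [← e1, hT.base 0 K P]
    unfold Gd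
    have h5 : (fun (t : Fin k) (a : Fin (nn N 0 + 1)) =>
        ev K (cof (M t)) (update P 0 (Pi.single a 1))) =
        -fun (t : Fin k) (a : Fin (N + 1)) => bil K (M t) (P 1) (Pi.single a 1) := by
      funext t a
      rw [ev_cof, update_self, update_of_ne (by decide), bil_neg (hM t) (P 1)]
      rfl
    rw [h5]
    constructor
    · intro h
      have := h.neg
      rwa [neg_neg] at this
    · intro h
      exact h.neg
  unfold UU
  constructor
  · rintro ⟨h3, h4⟩
    refine ⟨fun t => ?_, hb0.1 (h4 {0} (by decide)), hb1.1 (h4 {1} (by decide))⟩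
    rw [← ev_cof]
    exact h3 t
  · rintro ⟨h3, h4, h5⟩
    refine ⟨fun t => ?_, fun I hI => ?_⟩
    · rw [ev_cof]
      exact h3 t
    · have h6 : I = ∅ ∨ I = {0} ∨ I = {1} := by
        revert I
        decide
      rcases h6 with rfl | rfl | rfl
      · exact h0'
      · exact hb0.2 h4
      · exact hb1.2 h5

theorem zz_uu {N k : ℕ} {M : Fin k → Matrix (Fin (N + 1)) (Fin (N + 1)) K}
    {G : Finset (Fin 2) → Finset (Pol K (nn N))}
    (hG : ∀ P : Vs K (nn N), UU (fun t => cof (M t)) G P ↔
        (∀ t, bil K (M t) (P 0) (P 1) = 0) ∧ Gd K M (P 0) ∧ Gd K M (P 1))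
    {P : Vs K (nn N)} (h : ZZ M P) : UU (fun t => cof (M t)) G P :=
  (hG P).2 ⟨h.1, all_gd h.2⟩

end

end Pool.Agent.Q35.GM
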