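import Mathlib
import Pool.Agent.Q35.GM.Geo
import Pool.Agent.Q35.EOW.Fac

/-!
Project GM: the number of pairs of points (with weights).
-/

set_option autoImplicit false

namespace Pool.Agent.Q35.GM

open Finset Function NumberField MvPolynomial
open Pool.Agent.Q35.MM (bx dg Pts fuj)
open Pool.Agent.Q35.SM (Cof Vs Var Pol ev pv MH Opn Cut Twr UU FF UU_smul)
open Pool.Agent.Q35.EO (S1g bxg Shp nug FFg YU hh asym wb lowL G0 G0_MH G0_iff erase_ne_univ mlt
  uu_ne_zero upbox cntg in_iff In pt)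
open Pool.Agent.Q35.EOW (LipW asymw cntw)

/-- The results of the earlier projects. -/
structure Inp : Prop where
  AD : Pool.Agent.Q35.MM.S_AD
  DB : Pool.Agent.Q35.MM.S_DB
  LW : Pool.Agent.Q35.MM.S_LW
  MK : Pool.Agent.Q35.MM.S_MK
  T0 : Pool.Agent.Q35.SM.S_T
  A : Pool.Agent.Q35.SM.S_A
  B : Pool.Agent.Q35.SM.S_B
  C : Pool.Agent.Q35.SM.S_C
  D : Pool.Agent.Q35.SM.S_D
  G0 : Pool.Agent.Q35.SM.S_G
  REP : Pool.Agent.Q35.LO.S_REP
  HB : Pool.Agent.Q35.LO.S_HB
  SC : Pool.Agent.Q35.LO.S_SC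
  NO : Pool.Agent.Q35.LO.S_NO
  LAT : Pool.Agent.Q35.EO.S_LAT
  ST : Pool.Agent.Q35.EO.S_ST
  DE : Pool.Agent.Q35.EO.S_DE
  SUM : Pool.Agent.Q35.EO.S_SUM2
  UN : Pool.Agent.Q35.EO.S_UN
  GG : Pool.Agent.Q35.EO.S_GG
  TAU : Pool.Agent.Q35.EO.S_TAU
  HYPR : Pool.Agent.Q35.EO.S_HYPR
  STW : Pool.Agent.Q35.EOW.S_STW
  GGW : Pool.Agent.Q35.EOW.S_GGW
  TAUW : Pool.Agent.Q35.EOW.S_TAUW
  PSI : Pool.Agent.Q35.EOW.S_PSI
  APX : Pool.Agent.Q35.EOW.S_APX
  CP1 : Pool.Agent.Q35.EOW.S_CP1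

theorem lipW_one {K : Type} [Field K] [NumberField K] {ι : Type} [DecidableEq ι] {n : ι → ℕ} :
    LipW ∅ 0 (fun _ : Vs K n => (1 : ℝ)) where
  nonneg := fun _ => zero_le_one
  le_one := fun _ => le_rfl
  smul := fun _ _ _ => rfl
  lip := fun P i y _ _ => by simp

theorem finsum_one_ncard {Y : Type} {s : Set Y} (hs : s.Finite) :
    ∑ᶠ y ∈ s, (1 : ℝ) = ((s.ncard : ℕ) : ℝ) := by
  rw [finsum_mem_eq_finite_toFinset_sum _ hs, Finset.sum_const, nsmul_eq_mul, mul_one,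
    Set.ncard_eq_toFinset_card _ hs]

/-- Pairs of points in boxes. -/
theorem prs (H : Inp) (hMOBB : S_MOBB) (K : Type) [Field K] [NumberField K] (N k : ℕ)
    (hk : 1 ≤ k) (hN : k * 2 + 1 ≤ N + 1) (c : Fin k → Cof K (nn N))
    (G : Finset (Fin 2) → Finset (Pol K (nn N)))
    (hT : Twr k (k * Fintype.card (Fin 2) + 1) c G) (hP : ∃ P : Vs K (nn N), UU c G P) :
    (∃ C : ℝ, 1 ≤ C ∧ ∀ β : Fin 2 → ℝ, (∀ l, 1 ≤ β l) →
      {x : Pts K (nn N) | UU c G (fun i => (x i).rep) ∧ ∀ l, (x l).mulHeight ≤ β l}.Finite ∧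
      (({x : Pts K (nn N) | UU c G (fun i => (x i).rep) ∧
        ∀ l, (x l).mulHeight ≤ β l}.ncard : ℕ) : ℝ) ≤ C * ∏ l, β l ^ (N + 1 - k)) ∧
    (∀ (S : Finset (FinitePlace K)) (Λ : ℝ) (W : Vs K (nn N) → ℝ), 0 ≤ Λ → LipW S Λ W →
      ∀ α : Fin 2 → ℝ, (∀ l, 0 < α l) → ∃ c1 : ℝ, Filter.Tendsto (fun T : ℝ =>
        (∑ᶠ x ∈ {x : Pts K (nn N) | UU c G (fun i => (x i).rep) ∧
          ∀ l, (x l).mulHeight ≤ α l * T}, W fun i => (x i).rep) / T ^ (2 * (N + 1 - k)))
          Filter.atTop (nhds c1)) ∧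
    ∃ c1 : ℝ, 0 < c1 ∧ Filter.Tendsto (fun T : ℝ =>
        (({x : Pts K (nn N) | UU c G (fun i => (x i).rep) ∧
          ∀ l, (x l).mulHeight ≤ T}.ncard : ℕ) : ℝ) / T ^ (2 * (N + 1 - k)))
          Filter.atTop (nhds c1) := by
  classical
  have hι : 2 ≤ Fintype.card (Fin 2) := by simp
  have hcard : Fintype.card (Fin 2) = 2 := by simp
  have hrn : ∀ i : Fin 2, k * Fintype.card (Fin 2) + 1 ≤ nn N i + 1 := by
    intro i
    rw [hcard]
    exact hN
  have hkn : ∀ i : Fin 2, k + 1 ≤ nn N i := fun i => by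
    show k + 1 ≤ N
    omega
  have hkn' : ∀ i : Fin 2, k ≤ nn N i := fun i => by
    show k ≤ N
    omega
  have hr1 : ∀ i : Fin 2, 1 ≤ nn N i + 1 - k := fun i => by
    show 1 ≤ N + 1 - k
    omega
  have hr2 : ∀ i : Fin 2, 2 ≤ nn N i + 1 - k := fun i => by
    show 2 ≤ N + 1 - k
    omega
  obtain ⟨P, hP⟩ := hP
  have hWB := wb H.AD H.T0 H.G0 K (Fin 2) (nn N) k _ c G hι hk (Nat.le_succ _) hrn hT
  have hdg : 1 ≤ dg K := Module.finrank_pos
  have hUs : ∀ a : Fin 2 → K, (∀ i, a i ≠ 0) → ∀ P, UU c G P → UU c G fun i => a i • P i :=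
    fun a ha P hP => UU_smul c G hT.hom a ha P hP
  have hU0 : ∀ P, UU c G P → ∀ i, P i ≠ 0 := fun P hP => uu_ne_zero hT hι hk hP
  obtain ⟨hfin, R, C, η, hR, hC0, hη, hgg⟩ := H.GG K (Fin 2) (nn N)
    (fun l => dg K * (nn N l + 1 - k))
    (UU c G) hUs hU0 (fun I c0 hI hc0 => by
      obtain ⟨C, η, h1, h2, h3⟩ := asym H.ST H.DE K (Fin 2) (nn N) k _ c G hι hk le_rfl hrn hT
        hWB I c0 hI hc0
      refine ⟨C, η, h1, h2, fun t ht => ?_⟩
      obtain ⟨R, h4, h5⟩ := h3 t ht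
      refine ⟨R, h4, fun b m hm hb => ?_⟩
      have h6 := h5 b m hm hb
      have h7 : cntg (UU c G) I t b = (FFg c G I t b).card := by
        unfold cntg FFg
        congr 1
      rw [h7]
      exact h6)
  have hh1 : ∀ l, ∀ y ∈ YU (UU c G), 1 ≤ hh (K := K) (n := nn N) l y := by
    intro l y hy
    unfold hh
    have h1 : (1 : ℝ) ≤ Ideal.absNorm (y.2 l) := by
      have h2 : Ideal.absNorm (y.2 l) ≠ 0 := by
        rw [Ne, Ideal.absNorm_eq_zero_iff]
        exact hy.2 l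
      exact_mod_cast Nat.one_le_iff_ne_zero.2 h2
    have h3 : 1 ≤ (y.1 l).mulHeight := (y.1 l).one_le_mulHeight
    nlinarith
  obtain ⟨R', C', η', hR', hC', hη', htau⟩ := H.TAU (Fin 2) _ (YU (UU c G)) hh (Units.rank K)
    (dg K) (fun l => nn N l + 1 - k) R C η hdg hr1 hR hC0 hη hh1 hfin
    (fun b m hm hb => hgg b m hm hb)
  obtain ⟨hfin2, hlim⟩ := H.HYPR (Fin 2) _ (YU (UU c G)) hh (fun l => nn N l + 1 - k) R' C' η'
    (by omega) hr1 hR' hC' hη' hh1 hfin htau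
  -- upper bound
  have hYfin : ∀ β : Fin 2 → ℝ, {y ∈ YU (UU c G) | ∀ l, hh (K := K) (n := nn N) l y ≤ β l}.Finite := by
    intro β
    refine (hfin (max (β 0) (β 1))).subset ?_
    rintro y ⟨hy1, hy2⟩
    refine ⟨hy1, fun l => (hy2 l).trans ?_⟩
    fin_cases l
    · exact le_max_left _ _
    · exact le_max_right _ _
  have hYU : ∀ β : Fin 2 → ℝ, (∀ l, 1 ≤ β l) →
      (({y ∈ YU (UU c G) | ∀ l, hh (K := K) (n := nn N) l y ≤ β l}.ncard : ℕ) : ℝ) ≤
        (R' + C') * ∏ l, β l ^ (nn N l + 1 - k) := by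
    intro β hβ
    have h1 := htau β 1 le_rfl hβ
    rw [Real.one_rpow, mul_one] at h1
    have h2 := (abs_le.1 h1).2
    linarith
  have hcmp : ∀ β : Fin 2 → ℝ,
      {x : Pts K (nn N) | UU c G (fun i => (x i).rep) ∧ ∀ l, (x l).mulHeight ≤ β l}.Finite ∧
      {x : Pts K (nn N) | UU c G (fun i => (x i).rep) ∧ ∀ l, (x l).mulHeight ≤ β l}.ncard ≤
        {y ∈ YU (UU c G) | ∀ l, hh (K := K) (n := nn N) l y ≤ β l}.ncard := by
    intro β
    have hinj : Function.Injective fun x : Pts K (nn N) =>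
        ((x, fun _ => ⊤) : Pts K (nn N) × (Fin 2 → Ideal (𝓞 K))) := fun x y h =>
      (Prod.ext_iff.1 h).1
    have hmaps : ∀ x ∈ {x : Pts K (nn N) | UU c G (fun i => (x i).rep) ∧
        ∀ l, (x l).mulHeight ≤ β l},
        ((x, fun _ => ⊤) : Pts K (nn N) × (Fin 2 → Ideal (𝓞 K))) ∈
          {y ∈ YU (UU c G) | ∀ l, hh (K := K) (n := nn N) l y ≤ β l} := by
      rintro x ⟨hx1, hx2⟩
      refine ⟨⟨hx1, fun l => ?_⟩, fun l => ?_⟩
      · exact top_ne_bot
      · unfold hh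
        simpa using hx2 l
    refine ⟨?_, ?_⟩
    · exact Set.Finite.of_injOn hmaps hinj.injOn (hYfin β)
    · exact Set.ncard_le_ncard_of_injOn _ hmaps hinj.injOn (hYfin β)
  have hexp : ∑ l : Fin 2, (nn N l + 1 - k) = 2 * (N + 1 - k) := by
    rw [Fin.sum_univ_two]
    show N + 1 - k + (N + 1 - k) = _
    ring
  -- weights
  have hW : ∀ (S : Finset (FinitePlace K)) (Λ : ℝ), 0 ≤ Λ → ∀ W : Vs K (nn N) → ℝ, LipW S Λ W →
      ∃ R2 R1 : ℝ, (0 < R2 → 0 < R1) ∧
        (∀ (β : Fin 2 → ℝ) (m : ℝ), 1 ≤ m → (∀ l, m ≤ β l) → ∃ e : ℝ,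
          |∑ᶠ y ∈ {y ∈ YU (UU c G) | ∀ l, hh (K := K) (n := nn N) l y ≤ β l},
            W (fun i => (y.1 i).rep) - R2 * ∏ l, β l ^ (nn N l + 1 - k)| ≤ e) ∧
        (∃ C2 η2 : ℝ, 0 ≤ C2 ∧ 0 < η2 ∧ ∀ (β : Fin 2 → ℝ) (m : ℝ), 1 ≤ m → (∀ l, m ≤ β l) →
          |∑ᶠ y ∈ {y ∈ YU (UU c G) | ∀ l, hh (K := K) (n := nn N) l y ≤ β l},
            W (fun i => (y.1 i).rep) - R2 * ∏ l, β l ^ (nn N l + 1 - k)| ≤
            C2 * m ^ (-η2) * ∏ l, β l ^ (nn N l + 1 - k)) ∧
        ∀ α : Fin 2 → ℝ, (∀ l, 0 < α l) → Filter.Tendsto (fun T : ℝ =>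
          (∑ᶠ x ∈ {x : Pts K (nn N) | UU c G (fun i => (x i).rep) ∧
            ∀ l, (x l).mulHeight ≤ α l * T}, W fun i => (x i).rep) / T ^ (2 * (N + 1 - k)))
            Filter.atTop (nhds (R1 * ∏ l, α l ^ (nn N l + 1 - k))) := by
    intro S Λ hΛ W hLW
    obtain ⟨R1, C1, η1, hR1, hC1, hη1, hgg1⟩ := H.GGW K (Fin 2) (nn N)
      (fun l => dg K * (nn N l + 1 - k))
      (UU c G) W hUs hU0 hLW.nonneg hLW.le_one hLW.smul (fun I c0 hI hc0 => by
        obtain ⟨C, η, h1, h2, h3⟩ := asymw H.ST H.DE H.STW K (Fin 2) (nn N) k _ c G hι hk le_rfl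
          hrn hT hWB S Λ hΛ I c0 hI hc0
        exact ⟨C, η, h1, h2, fun t ht => h3 t ht W hLW⟩)
    obtain ⟨R2, C2, η2, hR2, hC2, hη2, htau2⟩ := H.TAUW (Fin 2) _ (YU (UU c G))
      (fun y => W fun i => (y.1 i).rep) hh (Units.rank K) (dg K)
      (fun l => nn N l + 1 - k) R1 C1 η1 hdg hr1 hR1 hC1 hη1
      (fun y => hLW.nonneg _) (fun y => hLW.le_one _) hh1 hfin
      (fun b m hm hb => hgg1 b m hm hb)
    obtain ⟨R3, hR3, hlim3⟩ := hMOBB K (Fin 2) (nn N) (fun l => nn N l + 1 - k) (UU c G) W R2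
      (max C2 (R' + C')) η2 hr2 hR2 (hC2.trans (le_max_left _ _)) hη2 hLW.nonneg hLW.le_one hfin
      (fun β hβ => (hYU β hβ).trans (by
        refine mul_le_mul_of_nonneg_right (le_max_right _ _) ?_
        exact Finset.prod_nonneg fun l _ => pow_nonneg (zero_le_one.trans (hβ l)) _))
      (fun β m hm hβ => (htau2 β m hm hβ).trans (by
        have h1 : 0 ≤ m ^ (-η2) := Real.rpow_nonneg (zero_le_one.trans hm) _
        refine mul_le_mul_of_nonneg_right (mul_le_mul_of_nonneg_right (le_max_left _ _) h1) ?_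
        exact Finset.prod_nonneg fun l _ => pow_nonneg
          ((zero_le_one.trans hm).trans (hβ l)) _))
    refine ⟨R2, R3, hR3, fun β m hm hβ => ⟨_, htau2 β m hm hβ⟩, ⟨C2, η2, hC2, hη2, htau2⟩,
      fun α hα => ?_⟩
    have h1 := hlim3 α hα
    rw [hexp] at h1
    exact h1
  refine ⟨⟨max 1 (R' + C'), le_max_left _ _, fun β hβ => ⟨(hcmp β).1, ?_⟩⟩,
    fun S Λ W hΛ hLW α hα => ?_, ?_⟩
  · have h1 : (({x : Pts K (nn N) | UU c G (fun i => (x i).rep) ∧
        ∀ l, (x l).mulHeight ≤ β l}.ncard : ℕ) : ℝ) ≤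
        (({y ∈ YU (UU c G) | ∀ l, hh (K := K) (n := nn N) l y ≤ β l}.ncard : ℕ) : ℝ) := by
      exact_mod_cast (hcmp β).2
    refine h1.trans ((hYU β hβ).trans ?_)
    refine mul_le_mul_of_nonneg_right (le_max_right _ _) ?_
    exact Finset.prod_nonneg fun l _ => pow_nonneg (zero_le_one.trans (hβ l)) _
  · obtain ⟨R2, R1, -, -, -, h1⟩ := hW S Λ hΛ W hLW
    exact ⟨_, h1 α hα⟩
  · -- positivity
    obtain ⟨R2, R1, hpos, -, ⟨C2, η2, hC2, hη2, htau2⟩, h1⟩ := hW ∅ 0 le_rfl (fun _ => 1) lipW_one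
    -- R2 is positive: compare with the number of points
    have hRR : R2 = R' := by
      have h3 : ∀ m : ℝ, 1 ≤ m → |R2 - R'| ≤ C2 * m ^ (-η2) + C' * m ^ (-η') := by
        intro m hm
        have e1 := htau2 (fun _ => m) m hm (fun _ => le_rfl)
        have e2 := htau (fun _ => m) m hm (fun _ => le_rfl)
        have e3 : ∑ᶠ y ∈ {y ∈ YU (UU c G) | ∀ l, hh (K := K) (n := nn N) l y ≤ m}, (1 : ℝ) =
            (({y ∈ YU (UU c G) | ∀ l, hh (K := K) (n := nn N) l y ≤ m}.ncard : ℕ) : ℝ) := by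
          rw [finsum_mem_eq_finite_toFinset_sum _ (hYfin fun _ => m), Finset.sum_const,
            nsmul_eq_mul, mul_one, Set.ncard_eq_toFinset_card _ (hYfin fun _ => m)]
        rw [e3] at e1
        set Q : ℝ := ∏ l : Fin 2, m ^ (nn N l + 1 - k) with hQ
        have hm0 : 0 < m := by linarith
        have hQ0 : 0 < Q := by
          rw [hQ]
          exact Finset.prod_pos fun l _ => pow_pos hm0 _
        have e4 : |R2 - R'| * Q ≤ (C2 * m ^ (-η2) + C' * m ^ (-η')) * Q := by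
          have e5 : (R2 - R') * Q =
              ((({y ∈ YU (UU c G) | ∀ l, hh (K := K) (n := nn N) l y ≤ m}.ncard : ℕ) : ℝ) - R' * Q) -
              ((({y ∈ YU (UU c G) | ∀ l, hh (K := K) (n := nn N) l y ≤ m}.ncard : ℕ) : ℝ) -
                R2 * Q) := by ring
          rw [← abs_of_pos hQ0, ← abs_mul, e5, abs_of_pos hQ0]
          refine (abs_sub _ _).trans ?_
          linarith
        exact le_of_mul_le_mul_right e4 hQ0
      have h4 : Filter.Tendsto (fun m : ℝ => C2 * m ^ (-η2) + C' * m ^ (-η')) Filter.atTop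
          (nhds (C2 * 0 + C' * 0)) :=
        ((tendsto_rpow_neg_atTop hη2).const_mul C2).add ((tendsto_rpow_neg_atTop hη').const_mul C')
      rw [mul_zero, mul_zero, add_zero] at h4
      have h5 : |R2 - R'| ≤ 0 := by
        refine ge_of_tendsto h4 ?_
        filter_upwards [Filter.eventually_ge_atTop (1 : ℝ)] with m hm
        exact h3 m hm
      have h6 := abs_nonpos_iff.1 h5
      linarith
    have hR'pos : 0 < R' := by
      obtain ⟨x0, hx0⟩ := pt hT hι hk hP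
      obtain ⟨h1, g, hg, h2⟩ := hx0
      have hgx : pv (AlgebraicClosure K) g
          (fun i a => algebraMap K (AlgebraicClosure K) ((x0 i).rep a)) ≠ 0 := by
        intro h3
        apply h2
        unfold pv at h3 ⊢
        have h4 : aeval (fun v : Var (nn N) => algebraMap K (AlgebraicClosure K)
            ((x0 v.1).rep v.2)) g = algebraMap K (AlgebraicClosure K)
            (aeval (fun v : Var (nn N) => (x0 v.1).rep v.2) g) :=
          MvPolynomial.aeval_algebraMap_apply (AlgebraicClosure K)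
            (fun v : Var (nn N) => (x0 v.1).rep v.2) g
        have h3' : aeval (fun v : Var (nn N) => algebraMap K (AlgebraicClosure K)
            ((x0 v.1).rep v.2)) g = 0 := h3
        rw [h4, map_eq_zero] at h3'
        exact h3'
      have hind : ∀ j, LinearIndependent (AlgebraicClosure K)
          fun (t : Fin k) (a : Fin (nn N j + 1)) => ev (AlgebraicClosure K) (c t)
            (update (fun i a => algebraMap K (AlgebraicClosure K) ((x0 i).rep a)) j
              (Pi.single a 1)) := by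
        intro j
        rw [← hT.base j (AlgebraicClosure K) _]
        exact (G0_iff G (AlgebraicClosure K) _).1 ⟨g, hg, hgx⟩ _ (erase_ne_univ j)
      obtain ⟨c1, B1, hc1, hl1⟩ := lowL H.SC H.SUM H.NO K (Fin 2) hι (nn N) k hk hkn c g
        (G0_MH hT.hom g hg)
        ⟨fun i a => algebraMap K (AlgebraicClosure K) ((x0 i).rep a), fun t => by
          have h3 := h1 t
          unfold ev at h3 ⊢
          have h4 := congrArg (algebraMap K (AlgebraicClosure K)) h3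
          rw [map_sum, map_zero] at h4
          simpa only [map_mul, map_prod, Algebra.algebraMap_self, RingHom.id_apply] using h4,
          hgx, hind⟩
        (fun i => ((nn N i + 1 - k : ℕ) : ℝ)) (fun i => by exact_mod_cast hr1 i)
      have hne : Nonempty (Fin 2) := ⟨0⟩
      rw [Pool.Agent.Q35.LO.fuj_one hne (nn N) k hkn'] at hl1
      have hmlt : mlt (nn N) k (fun i => ((nn N i + 1 - k : ℕ) : ℝ)) = Fintype.card (Fin 2) := by
        unfold mlt
        have h1 : {i : Fin 2 | fuj (nn N) k (fun i => ((nn N i + 1 - k : ℕ) : ℝ)) *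
            ((nn N i + 1 - k : ℕ) : ℝ) = (nn N i : ℝ) + 1 - k} = Set.univ := by
          ext i
          rw [Pool.Agent.Q35.LO.fuj_one hne (nn N) k hkn']
          simp only [one_mul, Set.mem_univ, iff_true, Set.mem_ofPred_eq]
          have := hkn' i
          rw [Nat.cast_sub (by omega)]
          push_cast
          ring
        rw [h1, Set.ncard_univ, Nat.card_eq_fintype_card]
      have h5 : c1 ≤ R' / (Fintype.card (Fin 2) - 1).factorial := by
        refine ge_of_tendsto hlim ?_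
        filter_upwards [Filter.eventually_ge_atTop (max B1 3)] with B hB
        have hB1 : B1 ≤ B := (le_max_left _ _).trans hB
        have hB3 : (3 : ℝ) ≤ B := (le_max_right _ _).trans hB
        have h3 := hl1 B hB1
        rw [hmlt, Real.rpow_one] at h3
        have hlog : 0 < Real.log B := Real.log_pos (by linarith)
        rw [le_div_iff₀ (by positivity), ← mul_assoc]
        refine h3.trans ?_
        have hmaps : ∀ x ∈ {x : Pts K (nn N) | ((∀ t, ev K (c t) (fun i => (x i).rep) = 0) ∧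
            pv K g (fun i => (x i).rep) ≠ 0) ∧ ∏ i, (x i).mulHeight ^ ((nn N i + 1 - k : ℕ) : ℝ) ≤ B},
            ((x, fun _ => ⊤) : Pts K (nn N) × (Fin 2 → Ideal (𝓞 K))) ∈
              {y ∈ YU (UU c G) | ∏ l, hh (K := K) (n := nn N) l y ^ (nn N l + 1 - k) ≤ B} := by
          rintro x ⟨⟨hx1, hx2⟩, hx3⟩
          refine ⟨⟨(in_iff c G x).1 ⟨hx1, g, hg, hx2⟩, fun l => top_ne_bot⟩, ?_⟩
          unfold hh
          simpa only [Real.rpow_natCast, Ideal.absNorm_top, Nat.cast_one, one_mul] using hx3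
        have hinj : Function.Injective fun x : Pts K (nn N) =>
            ((x, fun _ => ⊤) : Pts K (nn N) × (Fin 2 → Ideal (𝓞 K))) := fun x y h =>
          (Prod.ext_iff.1 h).1
        exact_mod_cast Set.ncard_le_ncard_of_injOn _ hmaps hinj.injOn (hfin2 B)
      have h6 : ((Fintype.card (Fin 2) - 1).factorial : ℝ) = 1 := by simp
      rw [h6, div_one] at h5
      linarith
    refine ⟨R1, hpos (by rw [hRR]; exact hR'pos), ?_⟩
    have h7 := h1 (fun _ => 1) (fun _ => one_pos)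
    simp only [one_pow, Finset.prod_const_one, mul_one, one_mul] at h7
    refine h7.congr' ?_
    filter_upwards with T
    exact congrArg (· / T ^ (2 * (N + 1 - k))) (finsum_one_ncard (hcmp fun _ => T).1)

end Pool.Agent.Q35.GM
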