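import Mathlib
import Pool.Agent.Q35.GM.Prs

/-!
Project GM: weighted sums over the pairs of lines in good planes.
-/

set_option autoImplicit false

namespace Pool.Agent.Q35.GM

open Finset Function NumberField MvPolynomial
open Pool.Agent.Q35.MM (bx dg Pts fuj)
open Pool.Agent.Q35.SM (Cof Vs Var Pol ev pv MH Opn Cut Twr UU FF UU_smul)
open Pool.Agent.Q35.EOW (LipW asymw cntw nv)

/-- Few pairs of points in boxes are bad. -/
theorem thin_lim {f : ℝ → ℝ} {C A : ℝ} {p q : ℕ} (hpq : p < q) (hA : 0 < A)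
    (h0 : ∀ T, 0 ≤ f T) (h1 : ∀ T, 1 ≤ T → f T ≤ C * (A * T) ^ p) :
    Filter.Tendsto (fun T : ℝ => f T / T ^ q) Filter.atTop (nhds 0) := by
  have h2 : Filter.Tendsto (fun T : ℝ => C * A ^ p * (T⁻¹)) Filter.atTop (nhds (C * A ^ p * 0)) :=
    tendsto_inv_atTop_zero.const_mul _
  rw [mul_zero] at h2
  refine tendsto_of_tendsto_of_tendsto_of_le_of_le' tendsto_const_nhds h2 ?_ ?_
  · filter_upwards [Filter.eventually_ge_atTop (1 : ℝ)] with T hT
    exact div_nonneg (h0 T) (by positivity)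
  · filter_upwards [Filter.eventually_ge_atTop (1 : ℝ)] with T hT
    have hT0 : 0 < T := by linarith
    rw [div_le_iff₀ (by positivity)]
    have hCn : 0 ≤ C * (A * T) ^ p := (h0 T).trans (h1 T hT)
    have hC : 0 ≤ C * A ^ p := by
      rw [mul_pow, ← mul_assoc] at hCn
      exact nonneg_of_mul_nonneg_left hCn (pow_pos hT0 _)
    calc f T ≤ C * (A * T) ^ p := h1 T hT
      _ = C * A ^ p * T ^ p := by rw [mul_pow, mul_assoc]
      _ ≤ C * A ^ p * (T⁻¹ * T ^ q) := by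
          refine mul_le_mul_of_nonneg_left ?_ hC
          rw [inv_mul_eq_div, le_div_iff₀ hT0, ← pow_succ]
          exact pow_le_pow_right₀ hT hpq
      _ = C * A ^ p * T⁻¹ * T ^ q := by ring

/-- The weighted sums over the pairs of points in good planes. -/
theorem wgt (H : Inp) (hMOBB : S_MOBB) (hTHIN : S_THIN) (hUCP : S_UCP) (hAPL : S_APL) (K : Type)
    [Field K] [NumberField K] (N k : ℕ) (hk : 1 ≤ k) (hN : 4 * k ≤ N)
    (M : Fin k → Matrix (Fin (N + 1)) (Fin (N + 1)) K) (hM : ∀ t, Alt (M t))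
    (G : Finset (Fin 2) → Finset (Pol K (nn N)))
    (hT : Twr k (k * Fintype.card (Fin 2) + 1) (fun t => cof (M t)) G)
    (hG : ∀ P : Vs K (nn N), UU (fun t => cof (M t)) G P ↔
        (∀ t, bil K (M t) (P 0) (P 1) = 0) ∧ Gd K M (P 0) ∧ Gd K M (P 1))
    (hP : ∃ P : Vs K (nn N), UU (fun t => cof (M t)) G P)
    (A2 : Finset (Pol K (nn N))) (hA1 : ∀ g ∈ A2, MH g)
    (hA2 : ∀ x : Vs K (nn N), Opn K A2 x ↔ All K M (x 0) (x 1))
    (hA3 : ∀ x : Vs K (nn N), Gd K M (x 0) → Cut K (N + 1 - 2 * k) 1 A2 x) :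
    (∀ α : Fin 2 → ℝ, (∀ l, 0 < α l) → Filter.Tendsto (fun T : ℝ =>
      (({x : Pts K (nn N) | (UU (fun t => cof (M t)) G (fun i => (x i).rep) ∧
        ∀ l, (x l).mulHeight ≤ α l * T) ∧ ¬ ZZ M fun i => (x i).rep}.ncard : ℕ) : ℝ) /
        T ^ (2 * (N + 1 - k))) Filter.atTop (nhds 0)) ∧
    ∀ (S : Finset (FinitePlace K)) (F : Vs K (nn N) → ℝ), Nice (ZZ M) S F →
      ∀ (g : ℝ → ℝ) (Γ : ℝ), (∀ u v, |g u - g v| ≤ Γ * |u - v|) → (∀ u, 0 ≤ g u) →
      (∀ u, g u ≤ 1) → ∀ α : Fin 2 → ℝ, (∀ l, 0 < α l) → ∃ c1 : ℝ,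
      Filter.Tendsto (fun T : ℝ =>
        (∑ᶠ x ∈ {x : Pts K (nn N) | ZZ M (fun i => (x i).rep) ∧
          ∀ l, (x l).mulHeight ≤ α l * T},
          psS S (x 0).rep (x 1).rep ^ 2 * g (psS S (x 0).rep (x 1).rep) *
            F fun i => (x i).rep) / T ^ (2 * (N + 1 - k))) Filter.atTop (nhds c1) := by
  classical
  obtain ⟨⟨C0, hC0, hup⟩, hlim, -⟩ := prs H hMOBB K N k hk (by omega) (fun t => cof (M t)) G hT hP
  obtain ⟨C1, hC1, hthin⟩ := hTHIN K N k M A2 hk (by omega) hA1 hA3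
  have hZU : ∀ P : Vs K (nn N), ZZ M P → UU (fun t => cof (M t)) G P := fun P h => zz_uu hG h
  have hZ0 : ∀ P : Vs K (nn N), ZZ M P → ∀ i, P i ≠ 0 := by
    intro P h i
    have h1 := all_gd h.2
    fin_cases i
    · exact gd_ne_zero hk h1.1
    · exact gd_ne_zero hk h1.2
  have hth : ∀ α : Fin 2 → ℝ, (∀ l, 0 < α l) → Filter.Tendsto (fun T : ℝ =>
      (({x : Pts K (nn N) | (UU (fun t => cof (M t)) G (fun i => (x i).rep) ∧
        ∀ l, (x l).mulHeight ≤ α l * T) ∧ ¬ ZZ M fun i => (x i).rep}.ncard : ℕ) : ℝ) /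
        T ^ (2 * (N + 1 - k))) Filter.atTop (nhds 0) := by
    intro α hα
    refine thin_lim (C := C1) (A := max 1 (max (α 0) (α 1))) (p := N + 1 + 2 * k) (by omega)
      (lt_max_of_lt_left one_pos) (fun T => by positivity) (fun T hT => ?_)
    have hA1 : (1 : ℝ) ≤ max 1 (max (α 0) (α 1)) * T := by
      have : (1 : ℝ) ≤ max 1 (max (α 0) (α 1)) := le_max_left _ _
      nlinarith
    obtain ⟨hf, hc⟩ := hthin _ hA1
    refine le_trans ?_ hc
    have hsub : {x : Pts K (nn N) | (UU (fun t => cof (M t)) G (fun i => (x i).rep) ∧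
        ∀ l, (x l).mulHeight ≤ α l * T) ∧ ¬ ZZ M fun i => (x i).rep} ⊆
        {x : Pts K (nn N) | Gd K M (x 0).rep ∧ ¬ Opn K A2 (fun i => (x i).rep) ∧
          ∀ i, (x i).mulHeight ≤ max 1 (max (α 0) (α 1)) * T} := by
      intro x hx
      obtain ⟨⟨hx1, hx2⟩, hx3⟩ := hx
      obtain ⟨P, hP⟩ : ∃ P : Vs K (nn N), P = fun i => (x i).rep := ⟨_, rfl⟩
      rw [← hP] at hx1 hx3
      have hx4 := (hG P).1 hx1
      have hx5 : ¬ Opn K A2 P := fun h => hx3 ⟨hx4.1, (hA2 P).1 h⟩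
      have hx6 : Gd K M (x 0).rep := by
        have h7 := hx4.2.1
        rw [hP] at h7
        exact h7
      have hx8 : ∀ i, (x i).mulHeight ≤ max 1 (max (α 0) (α 1)) * T := by
        intro i
        refine (hx2 i).trans (mul_le_mul_of_nonneg_right ?_ (by linarith))
        have h9 : i = 0 ∨ i = 1 := by
          revert i
          decide
        rcases h9 with rfl | rfl
        · exact (le_max_left _ _).trans (le_max_right _ _)
        · exact (le_max_right _ _).trans (le_max_right _ _)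
      rw [hP] at hx5
      exact ⟨hx6, hx5, hx8⟩
    exact_mod_cast Set.ncard_le_ncard hsub hf
  refine ⟨hth, fun S F hF g Γ hg1 hg2 hg3 α hα => ?_⟩
  obtain ⟨⟨B, hB, hfB⟩, hsm, huc⟩ := hUCP K N (ZZ M) S F g Γ hZ0 hF hg1 hg2 hg3
  obtain ⟨f, hf⟩ : ∃ f : Vs K (nn N) → ℝ, ∀ P, f P =
    psS S (P 0) (P 1) ^ 2 * g (psS S (P 0) (P 1)) * F P := ⟨_, fun _ => rfl⟩
  simp only [← hf] at hfB huc
  have hap := H.APX K (Fin 2) (nn N) (ZZ M) (fun P => f P / B) S (fun a ha P h => zz_smul hM a ha P h)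
    hZ0 (fun P h => div_nonneg (hfB P h).1 hB.le) (fun P h => by
      rw [div_le_one hB]
      exact (hfB P h).2)
    (fun a ha P h => by
      have e1 := hf fun i => a i • P i
      have e2 := hsm a ha P h
      have e3 := hF.smul a ha P h
      rw [e2, e3, ← hf P] at e1
      show f (fun i => a i • P i) / B = f P / B
      rw [e1])
    (fun ε hε => by
      obtain ⟨δ, hδ, h1⟩ := huc (ε * B) (by positivity)
      refine ⟨δ, hδ, fun P Q hP hQ h2 h3 => ?_⟩
      have h4 := h1 P Q hP hQ h2 h3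
      show |f P / B - f Q / B| ≤ ε
      rw [← sub_div, abs_div, abs_of_pos hB, div_le_iff₀ hB]
      exact h4)
  have hfin : ∀ T : ℝ, {x : Pts K (nn N) | UU (fun t => cof (M t)) G (fun i => (x i).rep) ∧
        ∀ l, (x l).mulHeight ≤ α l * T}.Finite := by
    intro T
    refine ((hup (fun l => max 1 (α l * T)) (fun l => le_max_left _ _)).1).subset ?_
    rintro x ⟨hx1, hx2⟩
    exact ⟨hx1, fun l => (hx2 l).trans (le_max_right _ _)⟩
  obtain ⟨c1, hc1⟩ := hAPL (Pts K (nn N)) (fun x => ZZ M fun i => (x i).rep)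
    (fun T => {x : Pts K (nn N) | UU (fun t => cof (M t)) G (fun i => (x i).rep) ∧
        ∀ l, (x l).mulHeight ≤ α l * T}) (fun x => f (fun i => (x i).rep) / B)
    (2 * (N + 1 - k)) (C0 * ∏ l : Fin 2, (max 1 (α l)) ^ (N + 1 - k)) hfin
    (fun T hT => by
      have h1 := hup (fun l => max 1 (α l) * T) (fun l => by
        have : (1 : ℝ) ≤ max 1 (α l) := le_max_left _ _
        nlinarith)
      have h2 : (({x : Pts K (nn N) | UU (fun t => cof (M t)) G (fun i => (x i).rep) ∧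
          ∀ l, (x l).mulHeight ≤ α l * T}.ncard : ℕ) : ℝ) ≤
          (({x : Pts K (nn N) | UU (fun t => cof (M t)) G (fun i => (x i).rep) ∧
          ∀ l, (x l).mulHeight ≤ max 1 (α l) * T}.ncard : ℕ) : ℝ) := by
        have h3 := Set.ncard_le_ncard (s := {x : Pts K (nn N) |
          UU (fun t => cof (M t)) G (fun i => (x i).rep) ∧ ∀ l, (x l).mulHeight ≤ α l * T})
          (t := {x : Pts K (nn N) | UU (fun t => cof (M t)) G (fun i => (x i).rep) ∧
            ∀ l, (x l).mulHeight ≤ max 1 (α l) * T}) (by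
            rintro x ⟨hx1, hx2⟩
            refine ⟨hx1, fun l => (hx2 l).trans ?_⟩
            exact mul_le_mul_of_nonneg_right (le_max_right _ _) (by linarith)) h1.1
        exact_mod_cast h3
      refine h2.trans (h1.2.trans (le_of_eq ?_))
      rw [Fin.prod_univ_two, Fin.prod_univ_two, mul_pow, mul_pow, two_mul (N + 1 - k), pow_add]
      ring) (hth α hα)
    (fun ε hε => by
      obtain ⟨Λ, W, hΛ, hLW, hWf⟩ := hap ε hε
      obtain ⟨c2, hc2⟩ := hlim S Λ W hΛ hLW α hα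
      refine ⟨fun x => W fun i => (x i).rep, c2, fun x => ?_, fun x hx => hWf _ hx, hc2⟩
      rw [abs_of_nonneg (hLW.nonneg _)]
      exact hLW.le_one _)
  refine ⟨B * c1, (hc1.const_mul B).congr fun T => ?_⟩
  have hset : {y : Pts K (nn N) | y ∈ {x : Pts K (nn N) |
      UU (fun t => cof (M t)) G (fun i => (x i).rep) ∧ ∀ l, (x l).mulHeight ≤ α l * T} ∧
      ZZ M fun i => (y i).rep} =
      {x : Pts K (nn N) | ZZ M (fun i => (x i).rep) ∧ ∀ l, (x l).mulHeight ≤ α l * T} := by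
    ext x
    constructor
    · rintro ⟨⟨h1, h2⟩, h3⟩
      exact ⟨h3, h2⟩
    · rintro ⟨h1, h2⟩
      exact ⟨⟨hZU _ h1, h2⟩, h1⟩
  have hfin2 : {x : Pts K (nn N) | ZZ M (fun i => (x i).rep) ∧
      ∀ l, (x l).mulHeight ≤ α l * T}.Finite := by
    rw [← hset]
    exact (hfin T).subset fun x hx => hx.1
  have hfin3 : B * (∑ᶠ y ∈ {y : Pts K (nn N) | y ∈ {x : Pts K (nn N) |
      UU (fun t => cof (M t)) G (fun i => (x i).rep) ∧ ∀ l, (x l).mulHeight ≤ α l * T} ∧
      ZZ M fun i => (y i).rep}, f (fun i => (y i).rep) / B) =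
      ∑ᶠ x ∈ {x : Pts K (nn N) | ZZ M (fun i => (x i).rep) ∧ ∀ l, (x l).mulHeight ≤ α l * T},
          psS S (x 0).rep (x 1).rep ^ 2 * g (psS S (x 0).rep (x 1).rep) *
            F fun i => (x i).rep := by
    rw [hset, finsum_mem_eq_finite_toFinset_sum _ hfin2,
      finsum_mem_eq_finite_toFinset_sum _ hfin2, Finset.mul_sum]
    refine Finset.sum_congr rfl fun x _ => ?_
    rw [mul_div_assoc', mul_comm B, mul_div_assoc, div_self hB.ne', mul_one, hf]
  rw [← hfin3, mul_div_assoc]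

end Pool.Agent.Q35.GM
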