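import Mathlib
import Pool.Agent.Q35.GM.Wgt

/-!
Project GM: the system of the good planes and the lines.
-/

set_option autoImplicit false

namespace Pool.Agent.Q35.GM

open Finset Function NumberField MvPolynomial
open Pool.Agent.Q35.MM (bx dg Pts fuj)
open Pool.Agent.Q35.SM (Cof Vs Var Pol ev pv MH Opn Cut Twr UU FF UU_smul)

section

variable {K : Type} [Field K]

/-- The good planes. -/
def GW {N k : ℕ} (M : Fin k → Matrix (Fin (N + 1)) (Fin (N + 1)) K)
    (W : Submodule K (Fin (N + 1) → K)) : Prop :=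
  Module.finrank K W = 2 ∧ (∀ t, bil K (M t) (bs W).1 (bs W).2 = 0) ∧ All K M (bs W).1 (bs W).2

/-- The pair of vectors. -/
def pv2 {N : ℕ} (x y : Fin (N + 1) → K) : Vs K (nn N) := fun i => if i = 0 then x else y

theorem pv2_zero {N : ℕ} (x y : Fin (N + 1) → K) : pv2 x y 0 = x := by
  unfold pv2
  rw [if_pos rfl]

theorem pv2_one {N : ℕ} (x y : Fin (N + 1) → K) : pv2 x y 1 = y := by
  unfold pv2
  rw [if_neg (by decide)]

theorem pv2_eta {N : ℕ} (P : Vs K (nn N)) : pv2 (P 0) (P 1) = P := by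
  funext i
  fin_cases i
  · exact pv2_zero _ _
  · exact pv2_one _ _

theorem span_eq_of {m : ℕ} {W : Submodule K (Fin m → K)} (h : Module.finrank K W = 2)
    {x y : Fin m → K} (hxy : LinearIndependent K ![x, y]) (hx : x ∈ W) (hy : y ∈ W) :
    Submodule.span K {x, y} = W := by
  apply Submodule.eq_of_le_of_finrank_eq
  · rw [Submodule.span_le]
    rintro z (rfl | rfl)
    · exact hx
    · exact hy
  · rw [span_finrank hxy, h]

theorem gw_zz {N k : ℕ} {M : Fin k → Matrix (Fin (N + 1)) (Fin (N + 1)) K}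
    (hM : ∀ t, Alt (M t)) {W : Submodule K (Fin (N + 1) → K)} (h : GW M W)
    {P : Vs K (nn N)} (hP : LinearIndependent K ![P 0, P 1]) (h0 : P 0 ∈ W) (h1 : P 1 ∈ W) :
    ZZ M P := by
  obtain ⟨a, b, c, d, hd, e0, e1⟩ := change h.1 hP h0 h1
  have h2 : ZZ M (pv2 (bs W).1 (bs W).2) := by
    unfold ZZ
    rw [pv2_zero, pv2_one]
    exact h.2
  refine zz_comb hM h2 a b c d hd ?_ ?_
  · rw [pv2_zero, pv2_one]
    exact e0
  · rw [pv2_zero, pv2_one]
    exact e1

theorem zz_ind {N k : ℕ} {M : Fin k → Matrix (Fin (N + 1)) (Fin (N + 1)) K} (hk : 1 ≤ k)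
    {P : Vs K (nn N)} (h : ZZ M P) : LinearIndependent K ![P 0, P 1] := all_ind hk h.2

theorem zz_gw {N k : ℕ} {M : Fin k → Matrix (Fin (N + 1)) (Fin (N + 1)) K} (hk : 1 ≤ k)
    (hM : ∀ t, Alt (M t)) {P : Vs K (nn N)} (h : ZZ M P) :
    GW M (Submodule.span K {P 0, P 1}) := by
  have hi := zz_ind hk h
  have hf := span_finrank hi
  refine ⟨hf, ?_⟩
  obtain ⟨h1, h2⟩ := bs_spec hf
  obtain ⟨hm1, hm2⟩ := bs_mem hf
  rw [Submodule.mem_span_pair] at hm1 hm2
  obtain ⟨a, b, hab⟩ := hm1
  obtain ⟨c, d, hcd⟩ := hm2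
  have hd : a * d - b * c ≠ 0 := by
    intro h0
    have h3 : plu (bs (Submodule.span K {P 0, P 1})).1 (bs (Submodule.span K {P 0, P 1})).2 = 0 := by
      rw [← hab, ← hcd, plu_comb, h0, zero_smul]
    -- dependent
    rw [linInd_iff] at h1
    have h4 : d • (bs (Submodule.span K {P 0, P 1})).1 +
        (-b) • (bs (Submodule.span K {P 0, P 1})).2 = 0 := by
      rw [← hab, ← hcd]
      have e : d • (a • P 0 + b • P 1) + (-b) • (c • P 0 + d • P 1) =
          (a * d - b * c) • P 0 := by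
        funext p
        simp only [Pi.add_apply, Pi.smul_apply, smul_eq_mul]
        ring
      rw [e, h0, zero_smul]
    have h5 : (-c) • (bs (Submodule.span K {P 0, P 1})).1 +
        a • (bs (Submodule.span K {P 0, P 1})).2 = 0 := by
      rw [← hab, ← hcd]
      have e : (-c) • (a • P 0 + b • P 1) + a • (c • P 0 + d • P 1) =
          (a * d - b * c) • P 1 := by
        funext p
        simp only [Pi.add_apply, Pi.smul_apply, smul_eq_mul]
        ring
      rw [e, h0, zero_smul]
    obtain ⟨hd', hb'⟩ := h1 _ _ h4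
    obtain ⟨hc', ha'⟩ := h1 _ _ h5
    rw [neg_eq_zero] at hb' hc'
    rw [ha', hb', zero_smul, zero_smul, add_zero] at hab
    have h6 := h1 1 0 (by rw [← hab]; simp)
    exact one_ne_zero h6.1
  have h7 : ZZ M (pv2 (bs (Submodule.span K {P 0, P 1})).1 (bs (Submodule.span K {P 0, P 1})).2) := by
    refine zz_comb hM h a b c d hd ?_ ?_
    · rw [pv2_zero]
      exact hab.symm
    · rw [pv2_one]
      exact hcd.symm
  unfold ZZ at h7
  rw [pv2_zero, pv2_one] at h7
  exact h7

/-- Different lines are independent. -/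
theorem rep_ind {m : ℕ} {l l' : Projectivization K (Fin m → K)} (h : l ≠ l') :
    LinearIndependent K ![l.rep, l'.rep] := by
  have h1 := (Projectivization.independent_pair_iff_ne (K := K) l l').2 h
  rw [Projectivization.independent_iff] at h1
  have h2 : (Projectivization.rep ∘ ![l, l']) = ![l.rep, l'.rep] := by
    funext i
    fin_cases i <;> rfl
  rwa [h2] at h1

theorem ne_of_ind {m : ℕ} {l l' : Projectivization K (Fin m → K)}
    (h : LinearIndependent K ![l.rep, l'.rep]) : l ≠ l' := by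
  rintro rfl
  rw [linInd_iff] at h
  have := h 1 (-1) (by simp)
  exact one_ne_zero this.1

end

section

variable {K : Type} [Field K] [NumberField K]

theorem height_rep {m : ℕ} (l : Projectivization K (Fin m → K)) :
    l.mulHeight = Height.mulHeight l.rep := by
  conv_lhs => rw [← Projectivization.mk_rep l]
  rw [Projectivization.mulHeight_mk]

theorem isLam_mono {Λ : ℝ → ℝ} {C C' : ℝ} (h : IsLam Λ C) (hC : 0 < C) (hCC : C ≤ C') :
    IsLam Λ C' where
  mono := h.mono
  zero := h.zero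
  nonneg := h.nonneg
  le := fun u hu => (h.le u hu).trans (mul_le_mul_of_nonneg_right hCC (by linarith))
  pos := (one_div_le_one_div_of_le hC hCC).trans (h.pos.trans (h.mono hCC))

/-- The pair of points. -/
def pp2 {N : ℕ} (l l' : Projectivization K (Fin (N + 1) → K)) : Pts K (nn N) :=
  fun i => if i = 0 then l else l'

theorem pp2_zero {N : ℕ} (l l' : Projectivization K (Fin (N + 1) → K)) : pp2 l l' 0 = l := by
  unfold pp2
  rw [if_pos rfl]

theorem pp2_one {N : ℕ} (l l' : Projectivization K (Fin (N + 1) → K)) : pp2 l l' 1 = l' := by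
  unfold pp2
  rw [if_neg (by decide)]

/-- The system of the good planes. -/
theorem sysG (H : Inp) (hMIN : S_MIN) (hAVG : S_AVG) {N k : ℕ} (hk : 1 ≤ k) (hN : 4 * k ≤ N)
    {M : Fin k → Matrix (Fin (N + 1)) (Fin (N + 1)) K} (hM : ∀ t, Alt (M t)) (C0 : ℝ)
    (hup : ∀ β : Fin 2 → ℝ, (∀ l, 1 ≤ β l) →
      {x : Pts K (nn N) | ZZ M (fun i => (x i).rep) ∧ ∀ l, (x l).mulHeight ≤ β l}.Finite ∧
      (({x : Pts K (nn N) | ZZ M (fun i => (x i).rep) ∧
        ∀ l, (x l).mulHeight ≤ β l}.ncard : ℕ) : ℝ) ≤ C0 * ∏ l, β l ^ (N + 1 - k)) :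
    ∃ (Λ : ℝ → ℝ) (κ1 C η : ℝ), 0 < κ1 ∧
      Sys (PL := {W : Submodule K (Fin (N + 1) → K) // GW M W})
        (L := Projectivization K (Fin (N + 1) → K)) (fun l W => l.rep ∈ W.1)
        (fun l => l.mulHeight) (fun W => HW W.1) (fun W => κ1 * VW W.1) Λ (N + 1 - k) (dg K)
        C η := by
  obtain ⟨C1, hC1, hmin⟩ := hMIN K (N + 1)
  obtain ⟨Λ, κ1, C2, η, hκ1, hC2, hη, hlam, havg⟩ := hAVG K (N + 1)
  obtain ⟨C, hC⟩ : ∃ C : ℝ, C = C0 + |C0| + C1 + C2 + κ1 * C1 + C1 / κ1 + 1 := ⟨_, rfl⟩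
  have hq : 0 ≤ κ1 * C1 := by positivity
  have hq2 : 0 ≤ C1 / κ1 := by positivity
  have ha0 : 0 ≤ C0 + |C0| := by
    have := neg_abs_le C0
    linarith
  have hCC0 : C0 ≤ C := by
    have := abs_nonneg C0
    linarith
  have hCC1 : C1 ≤ C := by linarith
  have hCC2 : C2 ≤ C := by linarith
  have hC1' : 1 ≤ C := by linarith
  have hCpos : 0 < C := by linarith
  refine ⟨Λ, κ1, C, η, hκ1, ?_⟩
  refine
    { hr := by omega
      hd := Module.finrank_pos
      hC := hC1'
      hη := hη
      one_le_h := fun l => l.one_le_mulHeight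
      one_le_H := fun W => (hmin W.1 W.2.1).1
      uniq := ?_
      fin := ?_
      pairs := ?_
      upper := ?_
      lower := ?_
      v_bd := ?_
      lam := isLam_mono hlam (by linarith) hCC2
      avg := ?_ }
  · intro l l' W W' hne h1 h2 h3 h4
    apply Subtype.ext
    rw [← span_eq_of W.2.1 (rep_ind hne) h1 h2, ← span_eq_of W'.2.1 (rep_ind hne) h3 h4]
  · intro T
    have h1 := H.NO K Unit (fun _ => N) (fun _ => 1) (fun _ => le_rfl) T
    have h2 : Function.Injective fun l : Projectivization K (Fin (N + 1) → K) =>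
        ((fun _ => l : Pts K (fun _ : Unit => N))) := fun l l' h => congrFun h ()
    refine (h1.preimage h2.injOn).subset ?_
    intro l hl
    show ∏ _ : Unit, l.mulHeight ^ 1 ≤ T
    simpa using hl
  · intro T T' hT hT'
    have h1 := hup (fun i => if i = 0 then T else T') (fun i => by
      by_cases hi : i = 0
      · rw [if_pos hi]
        exact hT
      · rw [if_neg hi]
        exact hT')
    have hmaps : ∀ p ∈ {p : Projectivization K (Fin (N + 1) → K) ×
        Projectivization K (Fin (N + 1) → K) | p.1 ≠ p.2 ∧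
          (∃ W : {W : Submodule K (Fin (N + 1) → K) // GW M W}, p.1.rep ∈ W.1 ∧ p.2.rep ∈ W.1) ∧
          p.1.mulHeight ≤ T ∧ p.2.mulHeight ≤ T'}, pp2 p.1 p.2 ∈
        {x : Pts K (nn N) | ZZ M (fun i => (x i).rep) ∧
          ∀ l, (x l).mulHeight ≤ (if l = 0 then T else T')} := by
      rintro ⟨l, l'⟩ ⟨hne, ⟨W, hW1, hW2⟩, h2, h3⟩
      refine ⟨gw_zz hM W.2 (P := fun i => (pp2 l l' i).rep) ?_ ?_ ?_, fun i => ?_⟩
      · show LinearIndependent K ![(pp2 l l' 0).rep, (pp2 l l' 1).rep]
        rw [pp2_zero, pp2_one]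
        exact rep_ind hne
      · show (pp2 l l' 0).rep ∈ W.1
        rw [pp2_zero]
        exact hW1
      · show (pp2 l l' 1).rep ∈ W.1
        rw [pp2_one]
        exact hW2
      · have hi : i = 0 ∨ i = 1 := by
          revert i
          decide
        rcases hi with rfl | rfl
        · rw [if_pos rfl, pp2_zero]
          exact h2
        · rw [if_neg (by decide), pp2_one]
          exact h3
    have hinj : Set.InjOn (fun p : Projectivization K (Fin (N + 1) → K) ×
        Projectivization K (Fin (N + 1) → K) => (pp2 p.1 p.2 : Pts K (nn N))) {p : Projectivization K (Fin (N + 1) → K) ×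
        Projectivization K (Fin (N + 1) → K) | p.1 ≠ p.2 ∧
          (∃ W : {W : Submodule K (Fin (N + 1) → K) // GW M W}, p.1.rep ∈ W.1 ∧ p.2.rep ∈ W.1) ∧
          p.1.mulHeight ≤ T ∧ p.2.mulHeight ≤ T'} := by
      intro p _ q _ hpq
      have e0 := congrFun hpq 0
      have e1 := congrFun hpq 1
      have e0' : p.1 = q.1 := by
        have := e0
        simp only [pp2_zero] at this
        exact this
      have e1' : p.2 = q.2 := by
        have := e1
        simp only [pp2_one] at this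
        exact this
      exact Prod.ext e0' e1'
    have h4 := Set.ncard_le_ncard_of_injOn _ hmaps hinj h1.1
    have h5 : ∏ l : Fin 2, (if l = 0 then T else T') ^ (N + 1 - k) =
        T ^ (N + 1 - k) * T' ^ (N + 1 - k) := by
      rw [Fin.prod_univ_two, if_pos rfl, if_neg (by decide)]
    rw [h5] at h1
    have h6 : (0 : ℝ) ≤ T ^ (N + 1 - k) * T' ^ (N + 1 - k) := by positivity
    calc (_ : ℝ) ≤ (({x : Pts K (nn N) | ZZ M (fun i => (x i).rep) ∧
          ∀ l, (x l).mulHeight ≤ (if l = 0 then T else T')}.ncard : ℕ) : ℝ) := by exact_mod_cast h4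
      _ ≤ C0 * (T ^ (N + 1 - k) * T' ^ (N + 1 - k)) := h1.2
      _ ≤ C * (T ^ (N + 1 - k) * T' ^ (N + 1 - k)) := mul_le_mul_of_nonneg_right hCC0 h6
  · intro l l' W hne h1 h2
    have h3 := (hmin W.1 W.2.1).2.2.2.2.1 l l' hne h1 h2
    refine h3.trans (mul_le_mul_of_nonneg_right hCC1 ?_)
    exact mul_nonneg l.mulHeight_pos.le l'.mulHeight_pos.le
  · intro W
    obtain ⟨l, l', hne, h1, h2, h3⟩ := (hmin W.1 W.2.1).2.2.2.1
    refine ⟨l, l', hne, h1, h2, h3.trans (mul_le_mul_of_nonneg_right hCC1 ?_)⟩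
    have := (hmin W.1 W.2.1).1
    linarith
  · intro W
    obtain ⟨-, h1, h2, -⟩ := hmin W.1 W.2.1
    constructor
    · have h3 : 1 / C ≤ κ1 * (1 / C1) := by
        have h4 : κ1 * (1 / C1) = 1 / (C1 / κ1) := by
          field_simp
        rw [h4]
        exact one_div_le_one_div_of_le (by positivity) (by linarith)
      exact h3.trans (mul_le_mul_of_nonneg_left h1 hκ1.le)
    · exact (mul_le_mul_of_nonneg_left h2 hκ1.le).trans (by linarith)
  · intro W a b ha h1 h2
    have hH : 1 ≤ HW W.1 := (hmin W.1 W.2.1).1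
    have h3 : C2 * HW W.1 / a ≤ C * HW W.1 / a := by
      apply div_le_div_of_nonneg_right _ ha.le
      exact mul_le_mul_of_nonneg_right hCC2 (by linarith)
    have h4 := havg W.1 W.2.1 a b ha h1 (h3.trans h2)
    refine h4.trans ?_
    have h5 : 0 ≤ ((b : ℝ) ^ dg K) ^ 2 / HW W.1 := by positivity
    have h6 : 0 ≤ (HW W.1 / (a * (b : ℝ) ^ dg K)) ^ η := Real.rpow_nonneg (by positivity) _
    exact mul_le_mul_of_nonneg_right (mul_le_mul_of_nonneg_right hCC2 h5) h6

end

end Pool.Agent.Q35.GM
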