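import Mathlib
import Pool.Agent.Q35.GM.Sys

/-!
Project GM: the weighted number of the good planes.
-/

set_option autoImplicit false

namespace Pool.Agent.Q35.GM

open Finset Function NumberField MvPolynomial
open Pool.Agent.Q35.MM (bx dg Pts fuj)
open Pool.Agent.Q35.SM (Cof Vs Var Pol ev pv MH Opn Cut Twr UU FF UU_smul)
open Pool.Agent.Q35.EOW (LipW asymw cntw nv finsum_subtype' ncard_subtype')

section

variable {K : Type} [Field K] [NumberField K]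

/-- The set of the good planes. -/
abbrev Pln {N k : ℕ} (M : Fin k → Matrix (Fin (N + 1)) (Fin (N + 1)) K) : Type :=
  {W : Submodule K (Fin (N + 1) → K) // GW M W}

theorem Nice.const_mul {N : ℕ} {Z : Vs K (nn N) → Prop} {S : Finset (FinitePlace K)}
    {F : Vs K (nn N) → ℝ} (h : Nice Z S F) {a : ℝ} (ha : 0 < a) :
    Nice Z S fun P => a * F P := by
  obtain ⟨B, hB⟩ := h.bd
  refine ⟨⟨a * B, fun P hP => ⟨mul_nonneg ha.le (hB P hP).1,
    mul_le_mul_of_nonneg_left (hB P hP).2 ha.le⟩⟩, fun b hb P hP => ?_, fun c ε hc hε => ?_⟩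
  · show a * F _ = a * F P
    rw [h.smul b hb P hP]
  · obtain ⟨δ, hδ, h1⟩ := h.cont c (ε / a) hc (by positivity)
    refine ⟨δ, hδ, fun P Q hP hQ h2 h3 h4 h5 => ?_⟩
    have h6 := h1 P Q hP hQ h2 h3 h4 h5
    rw [← mul_sub, abs_mul, abs_of_pos ha]
    rw [le_div_iff₀ ha] at h6
    linarith

theorem niceFV (hVF : S_VF) {N k : ℕ} (hk : 1 ≤ k)
    (M : Fin k → Matrix (Fin (N + 1)) (Fin (N + 1)) K) (w : InfinitePlace K) :
    Nice (ZZ M) ∅ fun P => FV w (P 0) (P 1) := by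
  obtain ⟨C, hC, h1, h2⟩ := hVF K (N + 1)
  have hC0 : 0 < C := by linarith
  refine ⟨⟨C, fun P hP => ?_⟩, fun a ha P hP => ?_, fun c ε hc hε => ?_⟩
  · obtain ⟨e1, e2, -⟩ := h1 w (P 0) (P 1) (zz_ind hk hP)
    exact ⟨(by positivity : (0 : ℝ) ≤ 1 / C).trans e1, e2⟩
  · obtain ⟨-, -, -, e3⟩ := h1 w (P 0) (P 1) (zz_ind hk hP)
    have e4 := e3 (a 0) 0 0 (a 1) (by
      have := mul_ne_zero (ha 0) (ha 1)
      simpa using this)
    simpa using e4
  · obtain ⟨δ, hδ, h3⟩ := h2 w c ε hc hε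
    refine ⟨δ, hδ, fun P Q hP hQ h4 _ h5 _ => ?_⟩
    exact h3 (P 0) (P 1) (Q 0) (Q 1) (zz_ind hk hP) (zz_ind hk hQ) (h4 w) (h5 0 w) (h5 1 w)

theorem nice_prod (hNIC : S_NIC) {N : ℕ} {Z : Vs K (nn N) → Prop} {S : Finset (FinitePlace K)}
    {J : Type} (s : Finset J) (f : J → Vs K (nn N) → ℝ) (h : ∀ j ∈ s, Nice Z S (f j)) :
    Nice Z S fun P => ∏ j ∈ s, f j P := by
  classical
  obtain ⟨h1, h2, -⟩ := hNIC K N Z S
  induction s using Finset.induction_on with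
  | empty => simpa using h1
  | insert j s hj ih =>
    have h3 := h2 _ _ (h j (mem_insert_self j s)) (ih fun i hi => h i (mem_insert_of_mem hi))
    simpa only [Finset.prod_insert hj] using h3

/-- Bounds for the volumes, and the weights `w / v ^ 2`. -/
theorem niceF (hNIC : S_NIC) (hVF : S_VF) (hMIN : S_MIN) {N k : ℕ} (hk : 1 ≤ k)
    (M : Fin k → Matrix (Fin (N + 1)) (Fin (N + 1)) K) {κ1 : ℝ} (hκ : 0 < κ1)
    {S : Finset (FinitePlace K)} {Fw : Vs K (nn N) → ℝ} (hFw : Nice (ZZ M) S Fw) :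
    Nice (ZZ M) S fun P => Fw P / (κ1 * ∏ w : InfinitePlace K, FV w (P 0) (P 1)) ^ 2 := by
  obtain ⟨C, hC, hmin⟩ := hMIN K (N + 1)
  have hC0 : 0 < C := by linarith
  have h1 : Nice (ZZ M) ∅ fun P => ∏ w : InfinitePlace K, FV w (P 0) (P 1) :=
    nice_prod hNIC _ _ fun w _ => niceFV hVF hk M w
  have h2 : Nice (ZZ M) S fun P => ∏ w : InfinitePlace K, FV w (P 0) (P 1) :=
    (hNIC K N (ZZ M) ∅).2.2.2.2 _ S h1 (Finset.empty_subset _)
  have h3 := h2.const_mul hκ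
  have h4 := (hNIC K N (ZZ M) S).2.2.2.1 _ (κ1 * (1 / C)) h3 (by positivity) (fun P hP => by
    have hi := zz_ind hk hP
    have hf := span_finrank hi
    have e1 := VW_eq hVF hf hi (Submodule.subset_span (Set.mem_insert _ _))
      (Submodule.subset_span (Set.mem_insert_of_mem _ rfl))
    have e2 := (hmin _ hf).2.1
    rw [e1] at e2
    exact mul_le_mul_of_nonneg_left e2 hκ.le)
  have h5 := (hNIC K N (ZZ M) S).2.1 _ _ h4 h4
  have h6 := (hNIC K N (ZZ M) S).2.1 _ _ hFw h5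
  have e : (fun P : Vs K (nn N) => Fw P / (κ1 * ∏ w : InfinitePlace K, FV w (P 0) (P 1)) ^ 2) =
      fun P => Fw P * ((κ1 * ∏ w : InfinitePlace K, FV w (P 0) (P 1))⁻¹ *
        (κ1 * ∏ w : InfinitePlace K, FV w (P 0) (P 1))⁻¹) := by
    funext P
    rw [div_eq_mul_inv, pow_two, mul_inv]
  rw [e]
  exact h6

/-- The plane of a pair. -/
def spn {N k : ℕ} {M : Fin k → Matrix (Fin (N + 1)) (Fin (N + 1)) K} (hk : 1 ≤ k)
    (hM : ∀ t, Alt (M t)) (x : {x : Pts K (nn N) // ZZ M fun i => (x i).rep}) : Pln M :=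
  ⟨Submodule.span K {(x.1 0).rep, (x.1 1).rep},
    zz_gw (P := fun i => (x.1 i).rep) hk hM x.2⟩

theorem spn_mem {N k : ℕ} {M : Fin k → Matrix (Fin (N + 1)) (Fin (N + 1)) K} (hk : 1 ≤ k)
    (hM : ∀ t, Alt (M t)) (x : {x : Pts K (nn N) // ZZ M fun i => (x i).rep}) :
    (x.1 0).rep ∈ (spn hk hM x).1 ∧ (x.1 1).rep ∈ (spn hk hM x).1 :=
  ⟨Submodule.subset_span (Set.mem_insert _ _),
    Submodule.subset_span (Set.mem_insert_of_mem _ rfl)⟩

theorem pts_ind {N k : ℕ} {M : Fin k → Matrix (Fin (N + 1)) (Fin (N + 1)) K} (hk : 1 ≤ k)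
    (x : {x : Pts K (nn N) // ZZ M fun i => (x i).rep}) :
    LinearIndependent K ![(x.1 0).rep, (x.1 1).rep] :=
  zz_ind (P := fun i => (x.1 i).rep) hk x.2

theorem spn_height {N k : ℕ} {M : Fin k → Matrix (Fin (N + 1)) (Fin (N + 1)) K} (hk : 1 ≤ k)
    (hM : ∀ t, Alt (M t)) (x : {x : Pts K (nn N) // ZZ M fun i => (x i).rep}) :
    HW (spn hk hM x).1 =
      psi (x.1 0).rep (x.1 1).rep * ((x.1 0).mulHeight * (x.1 1).mulHeight) := by
  obtain ⟨h1, h2⟩ := spn_mem hk hM x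
  rw [HW_eq (spn hk hM x).2.1 (pts_ind hk x) h1 h2, psi, height_rep (x.1 0), height_rep (x.1 1),
    div_mul_cancel₀]
  have e0 := (x.1 0).mulHeight_ne_zero
  have e1 := (x.1 1).mulHeight_ne_zero
  rw [height_rep] at e0 e1
  exact mul_ne_zero e0 e1

/-- The pairs of lines in planes are the pairs of points. -/
theorem bij {N k : ℕ} {M : Fin k → Matrix (Fin (N + 1)) (Fin (N + 1)) K} (hk : 1 ≤ k)
    (hM : ∀ t, Alt (M t)) (T : ℝ) :
    Set.BijOn (fun x : {x : Pts K (nn N) // ZZ M fun i => (x i).rep} =>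
        (((x.1 0, x.1 1), spn hk hM x) : (Projectivization K (Fin (N + 1) → K) ×
          Projectivization K (Fin (N + 1) → K)) × Pln M))
      {x | (x.1 0).mulHeight ≤ T ∧ (x.1 1).mulHeight ≤ T}
      {p | p.1.1 ≠ p.1.2 ∧ p.1.1.rep ∈ p.2.1 ∧ p.1.2.rep ∈ p.2.1 ∧ p.1.1.mulHeight ≤ T ∧
        p.1.2.mulHeight ≤ T} := by
  refine ⟨fun x hx => ?_, fun x _ y _ h => ?_, fun p hp => ?_⟩
  · obtain ⟨h1, h2⟩ := spn_mem hk hM x
    exact ⟨ne_of_ind (pts_ind hk x), h1, h2, hx.1, hx.2⟩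
  · have h1 := (Prod.ext_iff.1 (Prod.ext_iff.1 h).1).1
    have h2 := (Prod.ext_iff.1 (Prod.ext_iff.1 h).1).2
    apply Subtype.ext
    funext i
    have hi : i = 0 ∨ i = 1 := by
      revert i
      decide
    rcases hi with rfl | rfl
    · exact h1
    · exact h2
  · obtain ⟨⟨l, l'⟩, W⟩ := p
    obtain ⟨hne, hW1, hW2, hT1, hT2⟩ := hp
    have hz : ZZ M (fun i => (pp2 l l' i).rep) := by
      refine gw_zz hM W.2 (P := fun i => (pp2 l l' i).rep) ?_ ?_ ?_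
      · show LinearIndependent K ![(pp2 l l' 0).rep, (pp2 l l' 1).rep]
        rw [pp2_zero, pp2_one]
        exact rep_ind hne
      · show (pp2 l l' 0).rep ∈ W.1
        rw [pp2_zero]
        exact hW1
      · show (pp2 l l' 1).rep ∈ W.1
        rw [pp2_one]
        exact hW2
    refine ⟨⟨pp2 l l', hz⟩, ⟨?_, ?_⟩, ?_⟩
    · show (pp2 l l' 0).mulHeight ≤ T
      rw [pp2_zero]
      exact hT1
    · show (pp2 l l' 1).mulHeight ≤ T
      rw [pp2_one]
      exact hT2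
    · have e1 : spn hk hM ⟨pp2 l l', hz⟩ = W := by
        apply Subtype.ext
        show Submodule.span K {(pp2 l l' 0).rep, (pp2 l l' 1).rep} = W.1
        rw [pp2_zero, pp2_one]
        exact span_eq_of W.2.1 (rep_ind hne) hW1 hW2
      show (((pp2 l l' 0, pp2 l l' 1), spn hk hM ⟨pp2 l l', hz⟩) : (_ × _) × Pln M) = _
      rw [e1, pp2_zero, pp2_one]

end

end Pool.Agent.Q35.GM
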