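import Mathlib
import Pool.Agent.Q35.GM.Lim
import Pool.Agent.Q35.EO.N2

/-!
Project GM: the weighted number of the good planes.
-/

set_option autoImplicit false

namespace Pool.Agent.Q35.GM

open Finset Function NumberField MvPolynomial
open Pool.Agent.Q35.MM (bx dg Pts fuj)
open Pool.Agent.Q35.SM (Cof Vs Var Pol ev pv MH Opn Cut Twr UU FF UU_smul)
open Pool.Agent.Q35.EOW (LipW asymw cntw nv finsum_subtype' ncard_subtype')

/-- The results of project GM. -/
structure Inq : Prop where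
  KER : S_KER
  ELA : S_ELA
  ELP : S_ELP
  CUTX : S_CUTX
  THIN : S_THIN
  MOBB : S_MOBB
  PSZ : S_PSZ
  UCP : S_UCP
  CPG : S_CPG
  PLB : S_PLB
  VF : S_VF
  MIN : S_MIN
  AVG : S_AVG
  UBS : S_UBS
  TAIL : S_TAIL
  CAU : S_CAU
  POS : S_POS
  INT : S_INT
  NIC : S_NIC
  APL : S_APL

/-- The weighted number of the good planes. -/
theorem limG (H : Inp) (Q : Inq) (K : Type) [Field K] [NumberField K] {N k : ℕ} (hk : 1 ≤ k)
    (hN : 4 * k ≤ N) (M : Fin k → Matrix (Fin (N + 1)) (Fin (N + 1)) K) (hM : ∀ t, Alt (M t))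
    (hS : Smo M) :
    (∀ (S : Finset (FinitePlace K)) (Fw : Vs K (nn N) → ℝ), Nice (ZZ M) S Fw →
      ∀ w : Pln M → ℝ, (∀ W, 0 ≤ w W) → (∀ W, w W ≤ 1) →
      (∀ x : {x : Pts K (nn N) // ZZ M fun i => (x i).rep},
        w (spn hk hM x) = Fw fun i => (x.1 i).rep) →
      ∃ c : ℝ, Filter.Tendsto (fun B : ℝ => (∑ᶠ W ∈ {W : Pln M | HW W.1 ≤ B}, w W) /
        B ^ (N + 1 - k)) Filter.atTop (nhds c)) ∧
    (∀ B : ℝ, {W : Pln M | HW W.1 ≤ B}.Finite) ∧
    (∀ W : Pln M, 1 ≤ HW W.1) ∧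
    ∃ c' B0 : ℝ, 0 < c' ∧ ∀ B : ℝ, B0 ≤ B →
      c' * B ^ (N + 1 - k) ≤ (({W : Pln M | HW W.1 ≤ B}.ncard : ℕ) : ℝ) := by
  classical
  obtain ⟨G, hT, hx0, hG⟩ := towerG H.T0 H.D Q.KER hN hM hS
  have hcard : Fintype.card (Fin 2) = 2 := by simp
  have hP : ∃ P : Vs K (nn N), UU (fun t => cof (M t)) G P :=
    Pool.Agent.Q35.EO.n2 H.C H.LW K (Fin 2) (nn N) k (k * Fintype.card (Fin 2) + 1)
      (fun t => cof (M t)) G (by rw [hcard]) (by rw [hcard]; omega) (fun i => by
        show k * Fintype.card (Fin 2) + 1 ≤ N + 1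
        rw [hcard]
        omega) hT hx0
  obtain ⟨A2, hA1, hA2⟩ := Q.ELA K N k M hk
  have hA3 := Q.CUTX K N k M A2 hk (by omega) hM hS hA1 hA2
  obtain ⟨⟨C0, hC0, hup0⟩, -, c1, hc1, hcnt⟩ :=
    prs H Q.MOBB K N k hk (by omega) (fun t => cof (M t)) G hT hP
  obtain ⟨hthin, hwgt⟩ := wgt H Q.MOBB Q.THIN Q.UCP Q.APL K N k hk hN M hM G hT hG hP A2 hA1
    (fun x => hA2 K x) hA3
  have hZU : ∀ P : Vs K (nn N), ZZ M P → UU (fun t => cof (M t)) G P := fun P h => zz_uu hG h
  have hup : ∀ β : Fin 2 → ℝ, (∀ l, 1 ≤ β l) →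
      {x : Pts K (nn N) | ZZ M (fun i => (x i).rep) ∧ ∀ l, (x l).mulHeight ≤ β l}.Finite ∧
      (({x : Pts K (nn N) | ZZ M (fun i => (x i).rep) ∧
        ∀ l, (x l).mulHeight ≤ β l}.ncard : ℕ) : ℝ) ≤ C0 * ∏ l, β l ^ (N + 1 - k) := by
    intro β hβ
    obtain ⟨h1, h2⟩ := hup0 β hβ
    have hsub : {x : Pts K (nn N) | ZZ M (fun i => (x i).rep) ∧ ∀ l, (x l).mulHeight ≤ β l} ⊆
        {x : Pts K (nn N) | UU (fun t => cof (M t)) G (fun i => (x i).rep) ∧
          ∀ l, (x l).mulHeight ≤ β l} := fun x hx => ⟨hZU _ hx.1, hx.2⟩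
    refine ⟨h1.subset hsub, le_trans ?_ h2⟩
    exact_mod_cast Set.ncard_le_ncard hsub h1
  obtain ⟨Λ, κ1, C, η, hκ, hsys⟩ := sysG H Q.MIN Q.AVG hk hN hM C0 hup
  obtain ⟨C', hubd⟩ := Q.UBS _ _ _ _ _ _ _ _ _ _ _ hsys
  obtain ⟨C2, hC2, htail⟩ := Q.TAIL _ _ _ _ _ _ _ _ _ _ _ _ hsys hubd
  have hdg : 1 ≤ dg K := Module.finrank_pos
  obtain ⟨Cm, hCm, hmin⟩ := Q.MIN K (N + 1)
  -- counting of the pairs with heights at most T
  have hY2 : ∀ T : ℝ, {x : {x : Pts K (nn N) // ZZ M fun i => (x i).rep} |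
      (x.1 0).mulHeight ≤ T ∧ (x.1 1).mulHeight ≤ T}.Finite := by
    intro T
    have h1 := (hup (fun _ => max 1 T) (fun _ => le_max_left _ _)).1
    refine (h1.preimage Subtype.coe_injective.injOn).subset ?_
    rintro x ⟨h2, h3⟩
    refine ⟨x.2, fun l => ?_⟩
    have hl : l = 0 ∨ l = 1 := by
      revert l
      decide
    rcases hl with rfl | rfl
    · exact h2.trans (le_max_right _ _)
    · exact h3.trans (le_max_right _ _)
  have hYset : ∀ T : ℝ, {x : {x : Pts K (nn N) // ZZ M fun i => (x i).rep} |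
      (x.1 0).mulHeight ≤ T ∧ (x.1 1).mulHeight ≤ T}.ncard =
      {x : Pts K (nn N) | ZZ M (fun i => (x i).rep) ∧ ∀ l, (x l).mulHeight ≤ T}.ncard := by
    intro T
    have h1 := ncard_subtype' (fun x : Pts K (nn N) => ZZ M fun i => (x i).rep)
      {x | ∀ l, (x l).mulHeight ≤ T}
    have h2 : {x : {x : Pts K (nn N) // ZZ M fun i => (x i).rep} |
        (x.1 0).mulHeight ≤ T ∧ (x.1 1).mulHeight ≤ T} =
        {y : {y : Pts K (nn N) // ZZ M fun i => (y i).rep} |
          (y : Pts K (nn N)) ∈ {x : Pts K (nn N) | ∀ l, (x l).mulHeight ≤ T}} := by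
      ext x
      constructor
      · rintro ⟨h2, h3⟩ l
        have hl : l = 0 ∨ l = 1 := by
          revert l
          decide
        rcases hl with rfl | rfl
        · exact h2
        · exact h3
      · intro h
        exact ⟨h 0, h 1⟩
    rw [h2]
    exact h1
  -- pairs of lines
  have hpp : ∀ T : ℝ, {x : {x : Pts K (nn N) // ZZ M fun i => (x i).rep} |
      (x.1 0).mulHeight ≤ T ∧ (x.1 1).mulHeight ≤ T}.ncard ≤
      {p : Projectivization K (Fin (N + 1) → K) × Projectivization K (Fin (N + 1) → K) |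
        p.1 ≠ p.2 ∧ (∃ W : Pln M, p.1.rep ∈ W.1 ∧ p.2.rep ∈ W.1) ∧
          p.1.mulHeight ≤ T ∧ p.2.mulHeight ≤ T}.ncard := by
    intro T
    have hfin : {p : Projectivization K (Fin (N + 1) → K) × Projectivization K (Fin (N + 1) → K) |
        p.1 ≠ p.2 ∧ (∃ W : Pln M, p.1.rep ∈ W.1 ∧ p.2.rep ∈ W.1) ∧
          p.1.mulHeight ≤ T ∧ p.2.mulHeight ≤ T}.Finite := by
      refine ((hsys.fin T).prod (hsys.fin T)).subset ?_
      rintro p ⟨-, -, h1, h2⟩
      exact ⟨h1, h2⟩
    refine Set.ncard_le_ncard_of_injOn (fun x => (x.1 0, x.1 1)) ?_ ?_ hfin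
    · rintro x ⟨h1, h2⟩
      obtain ⟨h3, h4⟩ := spn_mem hk hM x
      exact ⟨ne_of_ind (pts_ind hk x), ⟨spn hk hM x, h3, h4⟩, h1, h2⟩
    · intro x _ y _ h
      have h1 := (Prod.ext_iff.1 h).1
      have h2 := (Prod.ext_iff.1 h).2
      apply Subtype.ext
      funext i
      have hi : i = 0 ∨ i = 1 := by
        revert i
        decide
      rcases hi with rfl | rfl
      · exact h1
      · exact h2
  refine ⟨?_, hubd.fin, hsys.one_le_H, ?_⟩
  swap
  · -- lower bound
    have h1 : ∀ᶠ T : ℝ in Filter.atTop, c1 / 2 * T ^ (2 * (N + 1 - k)) ≤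
        (({p : Projectivization K (Fin (N + 1) → K) × Projectivization K (Fin (N + 1) → K) |
        p.1 ≠ p.2 ∧ (∃ W : Pln M, p.1.rep ∈ W.1 ∧ p.2.rep ∈ W.1) ∧
          p.1.mulHeight ≤ T ∧ p.2.mulHeight ≤ T}.ncard : ℕ) : ℝ) := by
      have h2 := hthin (fun _ => 1) (fun _ => one_pos)
      have e1 := (hcnt.eventually (lt_mem_nhds (by linarith : 3 * c1 / 4 < c1)))
      have e2 := (h2.eventually (gt_mem_nhds (by linarith : 0 < c1 / 4)))
      filter_upwards [e1, e2, Filter.eventually_ge_atTop (1 : ℝ)] with T e3 e4 hT1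
      have hpos : (0 : ℝ) < T ^ (2 * (N + 1 - k)) := by positivity
      rw [lt_div_iff₀ hpos] at e3
      rw [div_lt_iff₀ hpos] at e4
      simp only [one_mul] at e4
      have hf1 : {x : Pts K (nn N) | ZZ M (fun i => (x i).rep) ∧
          ∀ l, (x l).mulHeight ≤ T}.Finite := (hup (fun _ => T) (fun _ => hT1)).1
      have hf2 : {x : Pts K (nn N) | (UU (fun t => cof (M t)) G (fun i => (x i).rep) ∧
          ∀ l, (x l).mulHeight ≤ T) ∧ ¬ ZZ M fun i => (x i).rep}.Finite :=
        ((hup0 (fun _ => T) (fun _ => hT1)).1).subset fun x hx => hx.1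
      have h5 : {x : Pts K (nn N) | UU (fun t => cof (M t)) G (fun i => (x i).rep) ∧
          ∀ l, (x l).mulHeight ≤ T} ⊆
          {x : Pts K (nn N) | ZZ M (fun i => (x i).rep) ∧ ∀ l, (x l).mulHeight ≤ T} ∪
          {x : Pts K (nn N) | (UU (fun t => cof (M t)) G (fun i => (x i).rep) ∧
          ∀ l, (x l).mulHeight ≤ T) ∧ ¬ ZZ M fun i => (x i).rep} := by
        intro x hx
        by_cases hz : ZZ M fun i => (x i).rep
        · exact Or.inl ⟨hz, hx.2⟩
        · exact Or.inr ⟨hx, hz⟩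
      have h6 := (Set.ncard_le_ncard h5 (hf1.union hf2)).trans (Set.ncard_union_le _ _)
      have h7 := hpp T
      rw [hYset T] at h7
      have h8 : ((({x : Pts K (nn N) | UU (fun t => cof (M t)) G (fun i => (x i).rep) ∧
          ∀ l, (x l).mulHeight ≤ T}.ncard : ℕ) : ℝ)) ≤
          (({x : Pts K (nn N) | ZZ M (fun i => (x i).rep) ∧
            ∀ l, (x l).mulHeight ≤ T}.ncard : ℕ) : ℝ) +
          (({x : Pts K (nn N) | (UU (fun t => cof (M t)) G (fun i => (x i).rep) ∧
          ∀ l, (x l).mulHeight ≤ T) ∧ ¬ ZZ M fun i => (x i).rep}.ncard : ℕ) : ℝ) := by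
        exact_mod_cast h6
      have h9 : (({x : Pts K (nn N) | ZZ M (fun i => (x i).rep) ∧
            ∀ l, (x l).mulHeight ≤ T}.ncard : ℕ) : ℝ) ≤
          (({p : Projectivization K (Fin (N + 1) → K) × Projectivization K (Fin (N + 1) → K) |
          p.1 ≠ p.2 ∧ (∃ W : Pln M, p.1.rep ∈ W.1 ∧ p.2.rep ∈ W.1) ∧
          p.1.mulHeight ≤ T ∧ p.2.mulHeight ≤ T}.ncard : ℕ) : ℝ) := by
        exact_mod_cast h7
      linarith
    obtain ⟨T0, hT0⟩ := Filter.eventually_atTop.1 h1
    exact Q.POS _ _ _ _ _ _ _ _ _ _ _ _ _ _ hsys hubd (by positivity) hT0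
  · intro S Fw hFw w hw0 hw1 hwF
    refine Q.CAU _ _ _ _ _ _ _ _ _ _ _ _ w hsys hubd hw0 hw1 (fun ρ g hρ hg hg0 hg1 => ?_)
    -- the weights
    have hNF := niceF Q.NIC Q.VF Q.MIN hk M hκ hFw
    obtain ⟨F, hF⟩ : ∃ F : Vs K (nn N) → ℝ, ∀ P, F P =
        Fw P / (κ1 * ∏ w : InfinitePlace K, FV w (P 0) (P 1)) ^ 2 := ⟨_, fun _ => rfl⟩
    have hNF' : Nice (ZZ M) S F := by
      have : F = fun P => Fw P / (κ1 * ∏ w : InfinitePlace K, FV w (P 0) (P 1)) ^ 2 :=
        funext hF
      rw [this]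
      exact hNF
    obtain ⟨BF, hBF⟩ := hNF'.bd
    have hPSZ : ∀ z : ℕ, ∃ S0 : Finset (FinitePlace K), 1 ≤ z →
        ∀ S : Finset (FinitePlace K), S0 ⊆ S → ∀ (m : ℕ) (x y : Fin m → K), plu x y ≠ 0 →
          0 ≤ psi x y ∧ psi x y ≤ psS S x y ∧ psS S x y ≤ 2 ^ dg K ∧
            (1 / (z : ℝ) ≤ psi x y → psS S x y = psi x y) := by
      intro z
      by_cases hz : 1 ≤ z
      · obtain ⟨S0, hS0⟩ := Q.PSZ K z hz
        exact ⟨S0, fun _ => hS0⟩
      · exact ⟨∅, fun h => absurd h hz⟩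
    choose S0 hS0 using hPSZ
    have hplu : ∀ x : {x : Pts K (nn N) // ZZ M fun i => (x i).rep},
        plu (x.1 0).rep (x.1 1).rep ≠ 0 := fun x =>
      (Q.PLB K (N + 1) _ _).1.1 (pts_ind hk x)
    obtain ⟨C3, hC3⟩ : ∃ C3 : ℝ, C3 = 1 + C0 + C2 + 2 ^ dg K + |BF| + C := ⟨_, rfl⟩
    have hC1 : 1 ≤ C := hsys.hC
    have hC3a : C0 ≤ C3 := by
      have := abs_nonneg BF
      have : (0 : ℝ) < 2 ^ dg K := by positivity
      linarith
    have hC3b : C2 ≤ C3 := by
      have := abs_nonneg BF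
      have : (0 : ℝ) < 2 ^ dg K := by positivity
      linarith
    have hC3c : (2 : ℝ) ^ dg K ≤ C3 := by
      have := abs_nonneg BF
      linarith
    have hC3d : BF ≤ C3 := by
      have := le_abs_self BF
      have : (0 : ℝ) < 2 ^ dg K := by positivity
      linarith
    have hC3e : C ≤ C3 := by
      have := abs_nonneg BF
      have : (0 : ℝ) < 2 ^ dg K := by positivity
      linarith
    obtain ⟨c5, hc5⟩ := Q.INT {x : Pts K (nn N) // ZZ M fun i => (x i).rep}
      (fun x => (x.1 0).mulHeight) (fun x => (x.1 1).mulHeight)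
      (fun x => psi (x.1 0).rep (x.1 1).rep) (fun x => F fun i => (x.1 i).rep)
      (fun z x => psS (S0 z ∪ S) (x.1 0).rep (x.1 1).rep) Λ (N + 1 - k) C3 (by linarith)
      (fun x => (x.1 0).one_le_mulHeight) (fun x => (x.1 1).one_le_mulHeight) hY2
      (fun T hT1 => by
        have h1 := hYset T
        have h2 := (hup (fun _ => T) (fun _ => hT1)).2
        rw [h1]
        refine h2.trans ?_
        rw [Fin.prod_univ_two, ← pow_add, ← two_mul]
        exact mul_le_mul_of_nonneg_right hC3a (by positivity))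
      (fun z T hz hT1 => by
        have hz0 : (0 : ℝ) < z := by exact_mod_cast hz
        have h1 := htail T z hT1 (by exact_mod_cast hz)
        refine le_trans ?_ (h1.trans ?_)
        · have hfin : {p : Projectivization K (Fin (N + 1) → K) ×
              Projectivization K (Fin (N + 1) → K) | p.1 ≠ p.2 ∧
              (∃ W : Pln M, p.1.rep ∈ W.1 ∧ p.2.rep ∈ W.1 ∧ HW W.1 ≤ T ^ 2 / (z : ℝ)) ∧
              p.1.mulHeight ≤ T ∧ p.2.mulHeight ≤ T}.Finite := by
            refine ((hsys.fin T).prod (hsys.fin T)).subset ?_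
            rintro p ⟨-, -, h1, h2⟩
            exact ⟨h1, h2⟩
          have h2 := Set.ncard_le_ncard_of_injOn
            (s := {x : {x : Pts K (nn N) // ZZ M fun i => (x i).rep} |
              (x.1 0).mulHeight ≤ T ∧ (x.1 1).mulHeight ≤ T ∧
                psi (x.1 0).rep (x.1 1).rep < 1 / (z : ℝ)})
            (fun x => (x.1 0, x.1 1)) (fun x hx => by
              obtain ⟨h3, h4⟩ := spn_mem hk hM x
              refine ⟨ne_of_ind (pts_ind hk x), ⟨spn hk hM x, h3, h4, ?_⟩, hx.1, hx.2.1⟩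
              rw [spn_height]
              have e1 := (x.1 0).mulHeight_pos
              have e2 := (x.1 1).mulHeight_pos
              have e3 : (x.1 0).mulHeight * (x.1 1).mulHeight ≤ T ^ 2 := by
                rw [pow_two]
                exact mul_le_mul hx.1 hx.2.1 e2.le (by linarith)
              calc psi (x.1 0).rep (x.1 1).rep * ((x.1 0).mulHeight * (x.1 1).mulHeight)
                  ≤ 1 / (z : ℝ) * T ^ 2 := by
                    refine mul_le_mul hx.2.2.le e3 (mul_pos e1 e2).le (by positivity)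
                _ = T ^ 2 / z := by ring) (fun x _ y _ h => by
              have h1 := (Prod.ext_iff.1 h).1
              have h2 := (Prod.ext_iff.1 h).2
              apply Subtype.ext
              funext i
              have hi : i = 0 ∨ i = 1 := by
                revert i
                decide
              rcases hi with rfl | rfl
              · exact h1
              · exact h2) hfin
          exact_mod_cast h2
        · refine mul_le_mul_of_nonneg_right ?_ (by positivity)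
          exact div_le_div_of_nonneg_right hC3b hz0.le)
      (fun x => by
        have := hS0 1 le_rfl _ (Finset.Subset.refl _) _ _ _ (hplu x)
        exact this.1)
      (fun z x hz => by
        have := hS0 z hz (S0 z ∪ S) Finset.subset_union_left _ _ _ (hplu x)
        exact ⟨this.2.1, this.2.2.1.trans hC3c⟩)
      (fun z x hz h => by
        have := hS0 z hz (S0 z ∪ S) Finset.subset_union_left _ _ _ (hplu x)
        exact this.2.2.2 h)
      (fun x => ⟨(hBF _ x.2).1, (hBF _ x.2).2.trans hC3d⟩)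
      (isLam_mono hsys.lam (by linarith) hC3e)
      (fun z g' α β hz hg' hg0' hg1' hα hβ => by
        obtain ⟨Γ, hΓ⟩ := hg'
        have hN2 := (Q.NIC K N (ZZ M) S).2.2.2.2 F (S0 z ∪ S) hNF' Finset.subset_union_right
        obtain ⟨c6, hc6⟩ := hwgt (S0 z ∪ S) F hN2 g' Γ hΓ hg0' hg1' (fun i => if i = 0 then α else β)
          (fun i => by
            by_cases hi : i = 0
            · rw [if_pos hi]
              exact hα
            · rw [if_neg hi]
              exact hβ)
        refine ⟨c6, hc6.congr fun T => ?_⟩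
        refine congrArg (· / T ^ (2 * (N + 1 - k))) ?_
        have h1 := finsum_subtype' (fun x : Pts K (nn N) => ZZ M fun i => (x i).rep)
          {x | ∀ l, (x l).mulHeight ≤ (if l = 0 then α else β) * T}
          (fun x => psS (S0 z ∪ S) (x 0).rep (x 1).rep ^ 2 *
            g' (psS (S0 z ∪ S) (x 0).rep (x 1).rep) * F fun i => (x i).rep)
        refine Eq.trans h1.symm ?_
        have h2 : {y : {y : Pts K (nn N) // ZZ M fun i => (y i).rep} |
            (y : Pts K (nn N)) ∈ {x : Pts K (nn N) | ∀ l, (x l).mulHeight ≤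
              (if l = 0 then α else β) * T}} =
            {x : {x : Pts K (nn N) // ZZ M fun i => (x i).rep} |
              (x.1 0).mulHeight ≤ α * T ∧ (x.1 1).mulHeight ≤ β * T} := by
          ext x
          constructor
          · intro h
            have e0 := h 0
            have e1 := h 1
            rw [if_pos rfl] at e0
            rw [if_neg (by decide)] at e1
            exact ⟨e0, e1⟩
          · rintro ⟨h2, h3⟩ l
            have hl : l = 0 ∨ l = 1 := by
              revert l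
              decide
            rcases hl with rfl | rfl
            · rw [if_pos rfl]
              exact h2
            · rw [if_neg (by decide)]
              exact h3
        rw [h2])
      ρ g hρ hg hg0 hg1
    refine ⟨c5, hc5.congr fun T => ?_⟩
    refine congrArg (· / T ^ (2 * (N + 1 - k))) ?_
    unfold PS
    refine finsum_mem_eq_of_bijOn _ (bij hk hM T) fun x _ => ?_
    have e1 := spn_height hk hM x
    have e2 : κ1 * VW (spn hk hM x).1 =
        κ1 * ∏ w : InfinitePlace K, FV w (x.1 0).rep (x.1 1).rep := by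
      obtain ⟨h1, h2⟩ := spn_mem hk hM x
      rw [VW_eq Q.VF (spn hk hM x).2.1 (pts_ind hk x) h1 h2]
    show Λ (T / (x.1 0).mulHeight) * Λ (T / (x.1 1).mulHeight) *
        (psi (x.1 0).rep (x.1 1).rep * ((x.1 0).mulHeight * (x.1 1).mulHeight) / T ^ 2) ^ 2 *
        g (ρ * (psi (x.1 0).rep (x.1 1).rep * ((x.1 0).mulHeight * (x.1 1).mulHeight) / T ^ 2)) *
        F (fun i => (x.1 i).rep) =
      Λ (T / (x.1 0).mulHeight) * Λ (T / (x.1 1).mulHeight) *
        (HW (spn hk hM x).1 / T ^ 2) ^ 2 * g (ρ * (HW (spn hk hM x).1 / T ^ 2)) *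
        (w (spn hk hM x) / (κ1 * VW (spn hk hM x).1) ^ 2)
    rw [e1, e2, hwF x, hF]

end Pool.Agent.Q35.GM
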