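import Mathlib
import Pool.Agent.Q35.GM.Lim2

/-!
Project GM: all adelic heights.
-/

set_option autoImplicit false

namespace Pool.Agent.Q35.GM

open Finset Function NumberField MvPolynomial IsDedekindDomain
open Pool.Agent.Q35.MM (bx dg Pts fuj)
open Pool.Agent.Q35.SM (Cof Vs Var Pol ev pv MH Opn Cut Twr UU FF UU_smul)
open Pool.Agent.Q35.EOW (LipW asymw cntw nv nv_eq finsum_subtype' ncard_subtype')

section

variable {K : Type} [Field K]

theorem plu_map {L : Type} [Field L] [Algebra K L] {m : ℕ} (x y : Fin m → K) :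
    (fun p => algebraMap K L (plu x y p)) =
      plu (fun a => algebraMap K L (x a)) (fun a => algebraMap K L (y a)) := by
  funext p
  simp [plu]

theorem bil_map {L : Type} [Field L] [Algebra K L] {m : ℕ} (M : Matrix (Fin m) (Fin m) K)
    (x y : Fin m → K) :
    bil L M (fun a => algebraMap K L (x a)) (fun a => algebraMap K L (y a)) =
      algebraMap K L (bil K M x y) := by
  unfold bil
  rw [map_sum]
  refine Finset.sum_congr rfl fun p _ => ?_
  rw [map_sum]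
  refine Finset.sum_congr rfl fun q _ => ?_
  rw [map_mul, map_mul]
  rfl

theorem nvp_eq {L : Type} [NormedField L] (σ : K →+* L) (v : K → ℝ) (hv : ∀ a, ‖σ a‖ = v a)
    {m : ℕ} (x y : Fin (m + 1) → K) :
    nvp v x y = ‖plu (fun a => σ (x a)) (fun a => σ (y a))‖ := by
  have h0 : ∀ p, σ (plu x y p) = plu (fun a => σ (x a)) (fun a => σ (y a)) p := by
    intro p
    simp [plu]
  unfold nvp
  apply le_antisymm
  · refine ciSup_le fun p => ?_
    rw [← hv, h0]
    exact norm_le_pi_norm (plu (fun a => σ (x a)) (fun a => σ (y a))) p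
  · rw [pi_norm_le_iff_of_nonneg (Real.iSup_nonneg fun a => by rw [← hv]; positivity)]
    intro p
    rw [← h0, hv]
    exact le_ciSup (f := fun p => v (plu x y p)) (Set.finite_range _).bddAbove p

/-- The point is in the open subset of `X` given by the polynomials. -/
def InG {m k : ℕ} (M : Fin k → Matrix (Fin m) (Fin m) K)
    (A : Finset (MvPolynomial (Fin m × Fin m) K))
    (p : Projectivization K (Fin m × Fin m → K)) : Prop :=
  (∃ x y : Fin m → K, p.rep = plu x y ∧ ∀ t, bil K (M t) x y = 0) ∧ ∃ g ∈ A, aeval p.rep g ≠ 0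

end

section

variable {K : Type} [Field K] [NumberField K]

theorem nice_of (hCPG : S_CPG) (hPLB : S_PLB) {N k : ℕ} (hk : 1 ≤ k)
    {M : Fin k → Matrix (Fin (N + 1)) (Fin (N + 1)) K} (hM : ∀ t, Alt (M t))
    {S : Finset (FinitePlace K)} (L : Type) [NormedField L] [Algebra K L] [ProperSpace L]
    (ψ : (Fin (N + 1) × Fin (N + 1) → L) → ℝ) (hψ : ContG M L ψ)
    (hv : (∃ v : InfinitePlace K, ∀ a, ‖algebraMap K L a‖ = v a) ∨
      ∃ v ∈ S, ∀ a, ‖algebraMap K L a‖ = v a) :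
    Nice (ZZ M) S (fun P => ψ fun p => algebraMap K L (plu (P 0) (P 1) p)) ∧
      ∃ A : ℝ, 0 < A ∧ ∀ P, ZZ M P → A ≤ ψ fun p => algebraMap K L (plu (P 0) (P 1) p) := by
  obtain ⟨⟨A, B, hA, hb⟩, hc⟩ := hCPG K (N + 1) k M L ψ hM hψ
  have hplu : ∀ P : Vs K (nn N), ZZ M P →
      plu (fun a => algebraMap K L (P 0 a)) (fun a => algebraMap K L (P 1 a)) ≠ 0 := by
    intro P hP h0
    apply (hPLB K (N + 1) _ _).1.1 (zz_ind hk hP)
    rw [← plu_map] at h0
    funext p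
    have h1 := congrFun h0 p
    simpa using h1
  have hbil : ∀ P : Vs K (nn N), ZZ M P → ∀ t,
      bil L (M t) (fun a => algebraMap K L (P 0 a)) (fun a => algebraMap K L (P 1 a)) = 0 := by
    intro P hP t
    rw [bil_map, hP.1 t, map_zero]
  have hcone : ∀ P : Vs K (nn N), ZZ M P →
      ConeG M L fun p => algebraMap K L (plu (P 0) (P 1) p) := by
    intro P hP
    rw [plu_map]
    exact ⟨hplu P hP, _, _, rfl, hbil P hP⟩
  refine ⟨⟨⟨B, fun P hP => ⟨hA.le.trans (hb _ (hcone P hP)).1, (hb _ (hcone P hP)).2⟩⟩,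
    fun a ha P hP => ?_, fun c ε hc0 hε => ?_⟩, ⟨A, hA, fun P hP => (hb _ (hcone P hP)).1⟩⟩
  · have h1 := hψ.smul (algebraMap K L (a 0 * a 1)) (by
      rw [Ne, map_eq_zero]
      exact mul_ne_zero (ha 0) (ha 1)) _ (hcone P hP)
    rw [← h1]
    congr 1
    funext p
    show algebraMap K L (plu (a 0 • P 0) (a 1 • P 1) p) =
      algebraMap K L (a 0 * a 1) * algebraMap K L (plu (P 0) (P 1) p)
    rw [plu_smul, Pi.smul_apply, smul_eq_mul, map_mul]
  · obtain ⟨δ, hδ, h1⟩ := hc c ε hc0 hε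
    refine ⟨δ, hδ, fun P R hP hR h2 h3 h4 h5 => ?_⟩
    have key : ∀ v : K → ℝ, (∀ a, ‖algebraMap K L a‖ = v a) →
        c * (nv v (P 0) * nv v (P 1)) ≤ nvp v (P 0) (P 1) →
        nv v (P 0 - R 0) ≤ δ * nv v (P 0) → nv v (P 1 - R 1) ≤ δ * nv v (P 1) →
        |ψ (fun p => algebraMap K L (plu (P 0) (P 1) p)) -
          ψ (fun p => algebraMap K L (plu (R 0) (R 1) p))| ≤ ε := by
      intro v hv e1 e2 e3
      rw [plu_map, plu_map]
      have hsub : ∀ u u' : Fin (N + 1) → K,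
          ((fun a => algebraMap K L (u a)) - fun a => algebraMap K L (u' a)) =
          fun a => algebraMap K L ((u - u') a) := by
        intro u u'
        funext a
        simp
      refine h1 _ _ _ _ (hplu P hP) (hplu R hR) (hbil P hP) (hbil R hR) ?_ ?_ ?_
      · rw [← nvp_eq (algebraMap K L) v hv, ← nv_eq (algebraMap K L) v hv,
          ← nv_eq (algebraMap K L) v hv]
        exact e1
      · rw [hsub, ← nv_eq (algebraMap K L) v hv, ← nv_eq (algebraMap K L) v hv]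
        exact e2
      · rw [hsub, ← nv_eq (algebraMap K L) v hv, ← nv_eq (algebraMap K L) v hv]
        exact e3
    rcases hv with ⟨v, hv⟩ | ⟨v, hvS, hv⟩
    · exact key v hv (h2 v) (h4 0 v) (h4 1 v)
    · exact key v hv (h3 v hvS) (h5 0 v hvS) (h5 1 v hvS)

/-- The product of continuous functions for the infinite places and the primes in `T`. -/
theorem nice_adelic (H : Inp) (Q : Inq) {N k : ℕ} (hk : 1 ≤ k)
    {M : Fin k → Matrix (Fin (N + 1)) (Fin (N + 1)) K} (hM : ∀ t, Alt (M t))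
    (T : Finset (HeightOneSpectrum (𝓞 K)))
    (ψ : ∀ w : InfinitePlace K, (Fin (N + 1) × Fin (N + 1) → w.Completion) → ℝ)
    (φ : ∀ v : HeightOneSpectrum (𝓞 K), (Fin (N + 1) × Fin (N + 1) → v.adicCompletion K) → ℝ)
    (hψ : ∀ w, ContG M w.Completion (ψ w)) (hφ : ∀ v ∈ T, ContG M (v.adicCompletion K) (φ v)) :
    ∃ S : Finset (FinitePlace K), Nice (ZZ M) S (fun P =>
      (∏ w, ψ w fun p => algebraMap K w.Completion (plu (P 0) (P 1) p)) *
        ∏ v ∈ T, φ v fun p => algebraMap K (v.adicCompletion K) (plu (P 0) (P 1) p)) ∧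
      ∃ A : ℝ, 0 < A ∧ ∀ P, ZZ M P → A ≤
        (∏ w, ψ w fun p => algebraMap K w.Completion (plu (P 0) (P 1) p)) *
        ∏ v ∈ T, φ v fun p => algebraMap K (v.adicCompletion K) (plu (P 0) (P 1) p) := by
  classical
  have h1 : ∀ w : InfinitePlace K, Nice (ZZ M) (T.image FinitePlace.mk)
      (fun P => ψ w fun p => algebraMap K w.Completion (plu (P 0) (P 1) p)) ∧
      ∃ A : ℝ, 0 < A ∧ ∀ P, ZZ M P →
        A ≤ ψ w fun p => algebraMap K w.Completion (plu (P 0) (P 1) p) := by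
    intro w
    have := (H.CP1 K).1 w
    exact nice_of Q.CPG Q.PLB hk hM w.Completion (ψ w) (hψ w)
      (Or.inl ⟨w, fun a => InfinitePlace.Completion.norm_coe w _⟩)
  have h2 : ∀ v ∈ T, Nice (ZZ M) (T.image FinitePlace.mk)
      (fun P => φ v fun p => algebraMap K (v.adicCompletion K) (plu (P 0) (P 1) p)) ∧
      ∃ A : ℝ, 0 < A ∧ ∀ P, ZZ M P →
        A ≤ φ v fun p => algebraMap K (v.adicCompletion K) (plu (P 0) (P 1) p) := by
    intro v hv
    have := (H.CP1 K).2 v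
    refine nice_of Q.CPG Q.PLB hk hM (v.adicCompletion K) (φ v) (hφ v hv)
      (Or.inr ⟨FinitePlace.mk v, mem_image_of_mem _ hv, fun a => ?_⟩)
    rw [FinitePlace.mk_apply]
    rfl
  refine ⟨T.image FinitePlace.mk, (Q.NIC K N _ _).2.1 _ _ (nice_prod Q.NIC _ _ fun w _ => (h1 w).1)
    (nice_prod Q.NIC _ _ fun v hv => (h2 v hv).1), ?_⟩
  choose A hA hA' using fun w => (h1 w).2
  choose! A2 hA2 hA2' using fun v (hv : v ∈ T) => (h2 v hv).2
  refine ⟨(∏ w, A w) * ∏ v ∈ T, A2 v, mul_pos (Finset.prod_pos fun w _ => hA w)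
    (Finset.prod_pos fun v hv => hA2 v hv), fun P hP => ?_⟩
  refine mul_le_mul ?_ ?_ (Finset.prod_nonneg fun v hv => (hA2 v hv).le)
    (Finset.prod_nonneg fun w _ => (hA w).le.trans (hA' w P hP))
  · exact Finset.prod_le_prod (fun w _ => (hA w).le) fun w _ => hA' w P hP
  · exact Finset.prod_le_prod (fun v hv => (hA2 v hv).le) fun v hv => hA2' v hv P hP

/-- From `B ^ r` to `B`. -/
theorem root_lim {f : ℝ → ℝ} {r : ℕ} (hr : 1 ≤ r) {c : ℝ}
    (h : Filter.Tendsto (fun B : ℝ => f B / B ^ r) Filter.atTop (nhds c)) :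
    Filter.Tendsto (fun B : ℝ => f (B ^ (1 / (r : ℝ))) / (B * Real.log B ^ 0)) Filter.atTop
      (nhds c) := by
  have hr0 : (0 : ℝ) < 1 / (r : ℝ) := by
    have : (0 : ℝ) < r := by exact_mod_cast hr
    positivity
  have h1 := h.comp (tendsto_rpow_atTop hr0)
  refine h1.congr' ?_
  filter_upwards [Filter.eventually_ge_atTop (0 : ℝ)] with B hB
  show f (B ^ (1 / (r : ℝ))) / (B ^ (1 / (r : ℝ))) ^ r = _
  rw [pow_zero, mul_one, ← Real.rpow_natCast, ← Real.rpow_mul hB, one_div,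
    inv_mul_cancel₀ (by exact_mod_cast (by omega : r ≠ 0)), Real.rpow_one]

/-- The theorem for all adelic heights. -/
theorem finG (H : Inp) (Q : Inq) (K : Type) [Field K] [NumberField K] (N k : ℕ) (hk : 1 ≤ k)
    (hN : 4 * k ≤ N) (M : Fin k → Matrix (Fin (N + 1)) (Fin (N + 1)) K) (hM : ∀ t, Alt (M t))
    (hS : Smo M) :
    ∃ A : Finset (MvPolynomial (Fin (N + 1) × Fin (N + 1)) K),
      (∀ g ∈ A, ∃ e, g.IsHomogeneous e) ∧
      (∃ p : Projectivization K (Fin (N + 1) × Fin (N + 1) → K), InG M A p) ∧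
      ∀ (T : Finset (HeightOneSpectrum (𝓞 K)))
        (ψ : ∀ w : InfinitePlace K, (Fin (N + 1) × Fin (N + 1) → w.Completion) → ℝ)
        (φ : ∀ v : HeightOneSpectrum (𝓞 K),
          (Fin (N + 1) × Fin (N + 1) → v.adicCompletion K) → ℝ),
        (∀ w, ContG M w.Completion (ψ w)) → (∀ v ∈ T, ContG M (v.adicCompletion K) (φ v)) →
        ∃ c2 : ℝ, 0 < c2 ∧ Filter.Tendsto (fun B : ℝ =>
          (({p : Projectivization K (Fin (N + 1) × Fin (N + 1) → K) | InG M A p ∧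
            p.mulHeight ^ (N + 1 - k) *
              ((∏ w, ψ w fun q => algebraMap K w.Completion (p.rep q)) *
                ∏ v ∈ T, φ v fun q => algebraMap K (v.adicCompletion K) (p.rep q)) ≤
                  B}.ncard : ℕ) : ℝ) / B) Filter.atTop (nhds c2) := by
  classical
  obtain ⟨A, hA1, hA2⟩ := Q.ELP K N k M hk
  obtain ⟨hlim, hfin, hone, c', B0, hc', hlow⟩ := limG H Q K hk hN M hM hS
  have hr : 1 ≤ N + 1 - k := by omega
  -- the map to the Pluecker coordinates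
  have hne : ∀ W : Pln M, plu (bs W.1).1 (bs W.1).2 ≠ 0 := fun W =>
    (Q.PLB K (N + 1) _ _).1.1 (bs_spec W.2.1).1
  obtain ⟨Φ, hΦ⟩ : ∃ Φ : Pln M → Projectivization K (Fin (N + 1) × Fin (N + 1) → K),
      ∀ W, Φ W = Projectivization.mk K (plu (bs W.1).1 (bs W.1).2) (hne W) :=
    ⟨_, fun _ => rfl⟩
  have hrep : ∀ W : Pln M, ∃ a : K, a ≠ 0 ∧ (Φ W).rep = a • plu (bs W.1).1 (bs W.1).2 := by
    intro W
    obtain ⟨a, ha⟩ := Projectivization.exists_smul_eq_mk_rep K _ (hne W)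
    refine ⟨a, Units.ne_zero a, ?_⟩
    rw [hΦ, ← ha]
    rfl
  have hheight : ∀ W : Pln M, (Φ W).mulHeight = HW W.1 := by
    intro W
    rw [hΦ, Projectivization.mulHeight_mk]
    rfl
  have hinj : Function.Injective Φ := by
    intro W W' h
    obtain ⟨a, ha, e1⟩ := hrep W
    obtain ⟨b, hb, e2⟩ := hrep W'
    rw [h, e2] at e1
    have e3 : plu (bs W'.1).1 (bs W'.1).2 = (b⁻¹ * a) • plu (bs W.1).1 (bs W.1).2 := by
      rw [mul_smul, ← e1, smul_smul, inv_mul_cancel₀ hb, one_smul]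
    have h1 := ((Q.PLB K (N + 1) _ _).2 (bs_spec W.2.1).1).1
    have h2 := ((Q.PLB K (N + 1) _ _).2 (bs_spec W'.2.1).1).1
    rw [(bs_spec W.2.1).2] at h1
    rw [(bs_spec W'.2.1).2] at h2
    apply Subtype.ext
    rw [← h1, ← h2]
    have hba : b⁻¹ * a ≠ 0 := mul_ne_zero (inv_ne_zero hb) ha
    have e4 : (fun (b_1 : Fin (N + 1)) (a_1 : Fin (N + 1)) =>
        plu (bs W'.1).1 (bs W'.1).2 (a_1, b_1)) = fun b_1 => (b⁻¹ * a) • fun a_1 =>
          plu (bs W.1).1 (bs W.1).2 (a_1, b_1) := by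
      funext b_1 a_1
      rw [e3]
      rfl
    rw [e4]
    apply le_antisymm
    · rw [Submodule.span_le]
      rintro v ⟨b_1, rfl⟩
      have h3 : (b⁻¹ * a) • (fun a_1 => plu (bs W.1).1 (bs W.1).2 (a_1, b_1)) ∈
          Submodule.span K (Set.range fun b_1 => (b⁻¹ * a) • fun a_1 =>
            plu (bs W.1).1 (bs W.1).2 (a_1, b_1)) :=
        Submodule.subset_span ⟨b_1, rfl⟩
      have h4 := Submodule.smul_mem _ (b⁻¹ * a)⁻¹ h3
      rw [smul_smul, inv_mul_cancel₀ hba, one_smul] at h4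
      exact h4
    · rw [Submodule.span_le]
      rintro v ⟨b_1, rfl⟩
      exact Submodule.smul_mem _ _ (Submodule.subset_span ⟨b_1, rfl⟩)
  have himg : ∀ p, InG M A p ↔ ∃ W, Φ W = p := by
    intro p
    constructor
    · rintro ⟨⟨x, y, hxy, hiso⟩, g, hg, hgp⟩
      have h1 : All K M x y := (hA2 K x y).1 ⟨g, hg, by rw [← hxy]; exact hgp⟩
      have hz : ZZ M (pv2 x y) := by
        unfold ZZ
        rw [pv2_zero, pv2_one]
        exact ⟨hiso, h1⟩
      have hi : LinearIndependent K ![x, y] := all_ind hk h1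
      have hgw := zz_gw hk hM hz
      rw [pv2_zero, pv2_one] at hgw
      refine ⟨⟨_, hgw⟩, ?_⟩
      obtain ⟨a, ha, e1⟩ := hrep ⟨_, hgw⟩
      have e2 := ((Q.PLB K (N + 1) x y).2 hi).2 _ _ (bs_mem hgw.1).1 (bs_mem hgw.1).2
      obtain ⟨b, hb⟩ := e2
      have e3 : (Φ ⟨_, hgw⟩).rep = (a * b) • p.rep := by
        rw [e1, hxy, mul_smul]
        congr 1
      rw [← Projectivization.mk_rep (Φ ⟨_, hgw⟩), ← Projectivization.mk_rep p,
        Projectivization.mk_eq_mk_iff']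
      exact ⟨a * b, e3.symm⟩
    · rintro ⟨W, rfl⟩
      obtain ⟨a, ha, e1⟩ := hrep W
      have e2 : (Φ W).rep = plu (a • (bs W.1).1) (bs W.1).2 := by
        have := plu_smul a 1 (bs W.1).1 (bs W.1).2
        rw [one_smul, mul_one] at this
        rw [e1, this]
      refine ⟨⟨_, _, e2, fun t => ?_⟩, ?_⟩
      · have e4 := bil_comb (hM t) a 0 0 1 (bs W.1).1 (bs W.1).2
        simp only [zero_smul, one_smul, add_zero, zero_add] at e4
        rw [e4, W.2.2.1 t, mul_zero]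
      · have e5 := all_comb W.2.2.2 a 0 0 1 (by simpa using ha)
        simp only [zero_smul, one_smul, add_zero, zero_add] at e5
        obtain ⟨g, hg, h6⟩ := (hA2 K _ _).2 e5
        exact ⟨g, hg, by rw [e2]; exact h6⟩
  refine ⟨A, hA1, ?_, fun T ψ φ hψ hφ => ?_⟩
  · -- existence
    have h1 := hlow (max B0 1) (le_max_left _ _)
    have h2 : (0 : ℝ) < (({W : Pln M | HW W.1 ≤ max B0 1}.ncard : ℕ) : ℝ) := by
      refine lt_of_lt_of_le ?_ h1
      have : (0 : ℝ) < max B0 1 := lt_max_of_lt_right one_pos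
      positivity
    have h3 : {W : Pln M | HW W.1 ≤ max B0 1}.Nonempty := by
      rw [← Set.ncard_pos (hfin _)]
      exact_mod_cast h2
    obtain ⟨W, -⟩ := h3
    exact ⟨Φ W, (himg _).2 ⟨W, rfl⟩⟩
  obtain ⟨S, hNS, A0, hA0, hlowΨ⟩ := nice_adelic H Q hk hM T ψ φ hψ hφ
  obtain ⟨Ψ, hΨ⟩ : ∃ Ψ : (Fin (N + 1) × Fin (N + 1) → K) → ℝ, ∀ u, Ψ u =
      (∏ w, ψ w fun q => algebraMap K w.Completion (u q)) *
        ∏ v ∈ T, φ v fun q => algebraMap K (v.adicCompletion K) (u q) := ⟨_, fun _ => rfl⟩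
  simp only [← hΨ]
  have hNS' : Nice (ZZ M) S fun P => Ψ (plu (P 0) (P 1)) := by
    have : (fun P : Vs K (nn N) => Ψ (plu (P 0) (P 1))) = fun P =>
      (∏ w, ψ w fun p => algebraMap K w.Completion (plu (P 0) (P 1) p)) *
        ∏ v ∈ T, φ v fun p => algebraMap K (v.adicCompletion K) (plu (P 0) (P 1) p) :=
      funext fun P => hΨ _
    rw [this]
    exact hNS
  have hlowΨ' : ∀ P : Vs K (nn N), ZZ M P → A0 ≤ Ψ (plu (P 0) (P 1)) := by
    intro P hP
    rw [hΨ]
    exact hlowΨ P hP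
  obtain ⟨BΨ, hBΨ⟩ := hNS'.bd
  -- invariance under scaling of the Pluecker vector
  have hscale : ∀ P : Vs K (nn N), ZZ M P → ∀ a : K, a ≠ 0 →
      Ψ (a • plu (P 0) (P 1)) = Ψ (plu (P 0) (P 1)) := by
    intro P hP a ha
    have h1 := hNS'.smul (fun i => if i = 0 then a else 1) (fun i => by
      by_cases hi : i = 0
      · rw [if_pos hi]
        exact ha
      · rw [if_neg hi]
        exact one_ne_zero) P hP
    have h2 : plu ((if (0 : Fin 2) = 0 then a else 1) • P 0)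
        ((if (1 : Fin 2) = 0 then a else 1) • P 1) = a • plu (P 0) (P 1) := by
      rw [if_pos rfl, if_neg (by decide), plu_smul, mul_one]
    rw [← h2]
    exact h1
  have hΨW : ∀ (W : Pln M) (P : Vs K (nn N)), ZZ M P → P 0 ∈ W.1 → P 1 ∈ W.1 →
      Ψ (Φ W).rep = Ψ (plu (P 0) (P 1)) := by
    intro W P hP h0 h1
    obtain ⟨a, ha, e1⟩ := hrep W
    have hi := zz_ind hk hP
    obtain ⟨b, hb⟩ := ((Q.PLB K (N + 1) (P 0) (P 1)).2 hi).2 (bs W.1).1 (bs W.1).2
      (by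
        rw [span_eq_of W.2.1 hi h0 h1]
        exact (bs_mem W.2.1).1)
      (by
        rw [span_eq_of W.2.1 hi h0 h1]
        exact (bs_mem W.2.1).2)
    have hb0 : b ≠ 0 := by
      rintro rfl
      rw [zero_smul] at hb
      exact hne W hb
    rw [e1, hb, smul_smul]
    exact hscale P hP _ (mul_ne_zero ha hb0)
  have hbasis : ∀ W : Pln M, ZZ M (pv2 (bs W.1).1 (bs W.1).2) := by
    intro W
    unfold ZZ
    rw [pv2_zero, pv2_one]
    exact W.2.2
  have hΨb : ∀ W : Pln M, A0 ≤ Ψ (Φ W).rep ∧ Ψ (Φ W).rep ≤ BΨ := by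
    intro W
    have h1 := hΨW W _ (hbasis W) (by rw [pv2_zero]; exact (bs_mem W.2.1).1)
      (by rw [pv2_one]; exact (bs_mem W.2.1).2)
    rw [h1]
    exact ⟨hlowΨ' _ (hbasis W), (hBΨ _ (hbasis W)).2⟩
  -- the sets of bounded height
  have hset : ∀ B : ℝ, 0 ≤ B → {W : Pln M | HW W.1 ^ (N + 1 - k) ≤ B} =
      {W : Pln M | HW W.1 ≤ B ^ (1 / ((N + 1 - k : ℕ) : ℝ))} := by
    intro B hB
    ext W
    have hH : 0 ≤ HW W.1 := zero_le_one.trans (hone W)
    constructor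
    · intro h
      have h' : HW W.1 ^ (N + 1 - k) ≤ B := h
      show HW W.1 ≤ B ^ (1 / ((N + 1 - k : ℕ) : ℝ))
      rw [one_div]
      refine (Real.le_rpow_inv_iff_of_pos hH hB (by exact_mod_cast hr)).2 ?_
      rw [Real.rpow_natCast]
      exact h'
    · intro h
      have h' : HW W.1 ≤ B ^ (1 / ((N + 1 - k : ℕ) : ℝ)) := h
      show HW W.1 ^ (N + 1 - k) ≤ B
      rw [one_div] at h'
      have h2 := (Real.le_rpow_inv_iff_of_pos hH hB (by exact_mod_cast hr)).1 h'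
      rw [Real.rpow_natCast] at h2
      exact h2
  have hsetfin : ∀ B : ℝ, {W : Pln M | HW W.1 ^ (N + 1 - k) ≤ B}.Finite := by
    intro B
    by_cases hB : 0 ≤ B
    · rw [hset B hB]
      exact hfin _
    · have : {W : Pln M | HW W.1 ^ (N + 1 - k) ≤ B} = ∅ := by
        ext W
        simp only [Set.mem_ofPred_eq, Set.mem_empty_iff_false, iff_false]
        intro h
        have h1 := one_le_pow₀ (hone W) (n := N + 1 - k)
        linarith
      rw [this]
      exact Set.finite_empty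
  -- weights
  have hwt : ∀ g : ℝ → ℝ, (∃ Γ : ℝ, ∀ u v, |g u - g v| ≤ Γ * |u - v|) → (∀ u, 0 ≤ g u) →
      (∀ u, g u ≤ 1) → ∃ c : ℝ, Filter.Tendsto (fun B : ℝ =>
        (∑ᶠ W ∈ {W : Pln M | HW W.1 ^ (N + 1 - k) ≤ B}, g (Ψ (Φ W).rep)) /
          (B * Real.log B ^ 0)) Filter.atTop (nhds c) := by
    intro g hg hg0 hg1
    obtain ⟨Γ, hΓ⟩ := hg
    have hN2 := (Q.NIC K N (ZZ M) S).2.2.1 _ g Γ hNS' hΓ hg0 hg1
    obtain ⟨c, hc⟩ := hlim S _ hN2 (fun W => g (Ψ (Φ W).rep)) (fun W => hg0 _) (fun W => hg1 _)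
      (fun x => by
        obtain ⟨h1, h2⟩ := spn_mem hk hM x
        show g (Ψ (Φ (spn hk hM x)).rep) = g (Ψ (plu (x.1 0).rep (x.1 1).rep))
        rw [hΨW (spn hk hM x) (fun i => (x.1 i).rep) x.2 h1 h2])
    refine ⟨c, (root_lim hr hc).congr' ?_⟩
    filter_upwards [Filter.eventually_ge_atTop (0 : ℝ)] with B hB
    exact congrArg (fun s : Set (Pln M) => (∑ᶠ W ∈ s, g (Ψ (Φ W).rep)) / (B * Real.log B ^ 0))
      (hset B hB).symm
  obtain ⟨c5, hc5, hlim5⟩ := H.PSI (Pln M) (fun W => HW W.1 ^ (N + 1 - k))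
    (fun W => Ψ (Φ W).rep) 0 A0 BΨ hA0 (fun W => (hΨb W).1) (fun W => (hΨb W).2) hsetfin
    (fun g hg hg0 hg1 ε hε => by
      obtain ⟨c, hc⟩ := hwt g hg hg0 hg1
      exact ⟨_, c, fun W => by simpa using hε.le, hc⟩)
    (by
      obtain ⟨c, hc⟩ := hwt (fun _ => 1) ⟨0, fun u v => by simp⟩ (fun _ => zero_le_one)
        (fun _ => le_rfl)
      have hc2 : Filter.Tendsto (fun B : ℝ =>
          (({W : Pln M | HW W.1 ^ (N + 1 - k) ≤ B}.ncard : ℕ) : ℝ) / (B * Real.log B ^ 0))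
          Filter.atTop (nhds c) := by
        refine hc.congr fun B => ?_
        exact congrArg (· / (B * Real.log B ^ 0)) (finsum_one_ncard (hsetfin B))
      refine ⟨c, lt_of_lt_of_le hc' (ge_of_tendsto hc2 ?_), hc2⟩
      have h1 : Filter.Tendsto (fun B : ℝ => B ^ (1 / ((N + 1 - k : ℕ) : ℝ))) Filter.atTop
          Filter.atTop := by
        apply tendsto_rpow_atTop
        have : (0 : ℝ) < ((N + 1 - k : ℕ) : ℝ) := by exact_mod_cast hr
        positivity
      filter_upwards [h1.eventually_ge_atTop B0, Filter.eventually_gt_atTop (0 : ℝ)] with B hB1 hB2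
      have h2 := hlow _ hB1
      rw [hset B hB2.le, pow_zero, mul_one, le_div_iff₀ hB2]
      refine le_trans (le_of_eq ?_) h2
      rw [← Real.rpow_natCast, ← Real.rpow_mul hB2.le, one_div,
        inv_mul_cancel₀ (by exact_mod_cast (by omega : N + 1 - k ≠ 0)), Real.rpow_one])
  refine ⟨c5, hc5, hlim5.congr fun B => ?_⟩
  rw [pow_zero, mul_one]
  congr 2
  rw [← Set.ncard_image_of_injective _ hinj]
  congr 1
  ext p
  constructor
  · rintro ⟨W, hW, rfl⟩
    refine ⟨(himg _).2 ⟨W, rfl⟩, ?_⟩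
    rw [hheight]
    exact hW
  · rintro ⟨h1, h2⟩
    obtain ⟨W, rfl⟩ := (himg p).1 h1
    rw [hheight] at h2
    exact ⟨W, h2, rfl⟩

end

end Pool.Agent.Q35.GM
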